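import Mathlib

/-! The second moment method and a summability criterion. -/

set_option autoImplicit false

namespace Pool.Agent.T2H21.RS

open MeasureTheory ProbabilityTheory

theorem second_moment {Ω : Type*} [MeasurableSpace Ω] (P : Measure Ω) [IsProbabilityMeasure P]
    {ι : Type*} (F : Finset ι) (S : ι → Set Ω) (hS : ∀ i, MeasurableSet (S i)) (μ : ℝ)
    (hμ : μ = ∑ i ∈ F, P.real (S i)) :
    μ ^ 2 * P.real {ω | ∀ i ∈ F, ω ∉ S i} ≤ (∑ i ∈ F, ∑ j ∈ F, P.real (S i ∩ S j)) - μ ^ 2 := by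
  classical
  set N : Ω → ℝ := fun ω => ∑ i ∈ F, (S i).indicator (fun _ => (1 : ℝ)) ω with hN
  have hint : ∀ A : Set Ω, MeasurableSet A →
      Integrable (A.indicator (fun _ => (1 : ℝ))) P := fun A hA =>
    (integrable_const (1 : ℝ)).indicator hA
  have hval : ∀ A : Set Ω, MeasurableSet A →
      ∫ ω, A.indicator (fun _ => (1 : ℝ)) ω ∂P = P.real A := fun A hA => by
    rw [integral_indicator hA, setIntegral_const, smul_eq_mul, mul_one]
  have hNint : Integrable N P := integrable_finsetSum _ fun i _ => hint _ (hS i)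
  have hNval : ∫ ω, N ω ∂P = μ := by
    rw [hN, integral_finsetSum _ fun i _ => hint _ (hS i), hμ]
    exact Finset.sum_congr rfl fun i _ => hval _ (hS i)
  have hN2 : ∀ ω, N ω ^ 2 = ∑ i ∈ F, ∑ j ∈ F, (S i ∩ S j).indicator (fun _ => (1 : ℝ)) ω := by
    intro ω
    rw [hN, pow_two, Finset.sum_mul_sum]
    refine Finset.sum_congr rfl fun i _ => Finset.sum_congr rfl fun j _ => ?_
    by_cases h1 : ω ∈ S i <;> by_cases h2 : ω ∈ S j <;> simp [Set.indicator, h1, h2]
  have hN2int : Integrable (fun ω => N ω ^ 2) P := by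
    simp_rw [hN2]
    exact integrable_finsetSum _ fun i _ => integrable_finsetSum _ fun j _ =>
      hint _ ((hS i).inter (hS j))
  have hN2val : ∫ ω, N ω ^ 2 ∂P = ∑ i ∈ F, ∑ j ∈ F, P.real (S i ∩ S j) := by
    simp_rw [hN2]
    rw [integral_finsetSum _ fun i _ => integrable_finsetSum _ fun j _ =>
      hint _ ((hS i).inter (hS j))]
    refine Finset.sum_congr rfl fun i _ => ?_
    rw [integral_finsetSum _ fun j _ => hint _ ((hS i).inter (hS j))]
    exact Finset.sum_congr rfl fun j _ => hval _ ((hS i).inter (hS j))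
  set B : Set Ω := {ω | ∀ i ∈ F, ω ∉ S i} with hB
  have hBm : MeasurableSet B := by
    have : B = ⋂ i ∈ F, (S i)ᶜ := by
      ext ω
      simp [hB]
    rw [this]
    exact F.measurableSet_biInter fun i _ => (hS i).compl
  have h1 : ∫ ω, B.indicator (fun _ => μ ^ 2) ω ∂P = μ ^ 2 * P.real B := by
    rw [integral_indicator hBm, setIntegral_const, smul_eq_mul, mul_comm]
  have h2 : ∫ ω, (N ω - μ) ^ 2 ∂P = (∑ i ∈ F, ∑ j ∈ F, P.real (S i ∩ S j)) - μ ^ 2 := by
    have e : ∀ ω, (N ω - μ) ^ 2 = N ω ^ 2 - 2 * μ * N ω + μ ^ 2 := fun ω => by ring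
    have i1 : Integrable (fun ω => 2 * μ * N ω) P := hNint.const_mul _
    have i2 : Integrable (fun ω => N ω ^ 2 - 2 * μ * N ω) P := hN2int.sub i1
    simp_rw [e]
    rw [integral_add i2 (integrable_const _), integral_sub hN2int i1, hN2val, integral_const_mul,
      hNval, integral_const]
    simp only [probReal_univ, smul_eq_mul]
    ring
  rw [← h1, ← h2]
  refine integral_mono ((integrable_const _).indicator hBm) ?_ ?_
  · have e : (fun ω => (N ω - μ) ^ 2) = fun ω => N ω ^ 2 - 2 * μ * N ω + μ ^ 2 := by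
      funext ω
      ring
    rw [e]
    exact (hN2int.sub (hNint.const_mul _)).add (integrable_const _)
  · intro ω
    by_cases hω : ω ∈ B
    · have h0 : N ω = 0 := by
        rw [hN]
        exact Finset.sum_eq_zero fun i hi => Set.indicator_of_notMem (hω i hi) _
      simp only [Set.indicator_of_mem hω, h0]
      ring_nf
      exact le_refl _
    · simp only [Set.indicator_of_notMem hω]
      positivity

/-- the sum of `f i ^ (-γ)` converges if at most `C X ^ θ` of the `f i` are `≤ X`, `θ < γ` -/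
theorem summable_rpow {ι : Type*} (f : ι → ℕ) (hf : ∀ i, 1 ≤ f i) {C θ γ : ℝ} (hθ : 0 ≤ θ)
    (hθγ : θ < γ) (h : ∀ X : ℕ, 1 ≤ X → ∀ s : Finset ι, (∀ i ∈ s, f i ≤ X) →
      (s.card : ℝ) ≤ C * (X : ℝ) ^ θ) :
    Summable fun i => (f i : ℝ) ^ (-γ) := by
  classical
  have hγ : 0 < γ := lt_of_le_of_lt hθ hθγ
  set q : ℝ := (2 : ℝ) ^ (θ - γ) with hq
  have hq0 : 0 < q := Real.rpow_pos_of_pos two_pos _
  have hq1 : q < 1 := Real.rpow_lt_one_of_one_lt_of_neg one_lt_two (by linarith)
  have hsum := summable_geometric_of_lt_one hq0.le hq1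
  have hC : 0 ≤ C := by
    have := h 1 le_rfl ∅ (by simp)
    simpa using this
  refine summable_of_sum_le (c := C * (2 : ℝ) ^ θ * ∑' j : ℕ, q ^ j)
    (fun i => Real.rpow_nonneg (Nat.cast_nonneg _) _) fun s => ?_
  have hmaps : ∀ i ∈ s, Nat.log 2 (f i) ∈ s.image fun i => Nat.log 2 (f i) := fun i hi =>
    Finset.mem_image_of_mem _ hi
  rw [← Finset.sum_fiberwise_of_maps_to hmaps]
  calc ∑ j ∈ s.image (fun i => Nat.log 2 (f i)),
        ∑ i ∈ s with Nat.log 2 (f i) = j, (f i : ℝ) ^ (-γ)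
      ≤ ∑ j ∈ s.image (fun i => Nat.log 2 (f i)), C * (2 : ℝ) ^ θ * q ^ j := by
        refine Finset.sum_le_sum fun j _ => ?_
        have hj : ∀ i ∈ s.filter (fun i => Nat.log 2 (f i) = j), 2 ^ j ≤ f i ∧ f i ≤ 2 ^ (j + 1) := by
          intro i hi
          have h1 := (Finset.mem_filter.1 hi).2
          refine ⟨?_, ?_⟩
          · rw [← h1]
            exact Nat.pow_log_le_self 2 (by have := hf i; omega)
          · rw [← h1]
            exact (Nat.lt_pow_succ_log_self one_lt_two _).le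
        have hcard := h (2 ^ (j + 1)) Nat.one_le_two_pow _ fun i hi => (hj i hi).2
        have hterm : ∀ i ∈ s.filter (fun i => Nat.log 2 (f i) = j),
            (f i : ℝ) ^ (-γ) ≤ ((2 : ℝ) ^ j) ^ (-γ) := by
          intro i hi
          refine Real.rpow_le_rpow_of_nonpos (by positivity) ?_ (by linarith)
          exact_mod_cast (hj i hi).1
        calc ∑ i ∈ s with Nat.log 2 (f i) = j, (f i : ℝ) ^ (-γ)
            ≤ ∑ i ∈ s with Nat.log 2 (f i) = j, ((2 : ℝ) ^ j) ^ (-γ) := Finset.sum_le_sum hterm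
          _ = ((s.filter (fun i => Nat.log 2 (f i) = j)).card : ℝ) * ((2 : ℝ) ^ j) ^ (-γ) := by
              rw [Finset.sum_const, nsmul_eq_mul]
          _ ≤ (C * ((2 ^ (j + 1) : ℕ) : ℝ) ^ θ) * ((2 : ℝ) ^ j) ^ (-γ) := by gcongr
          _ = C * (2 : ℝ) ^ θ * q ^ j := by
              have e1 : (((2 ^ (j + 1) : ℕ) : ℝ)) ^ θ = (2 : ℝ) ^ θ * ((2 : ℝ) ^ j) ^ θ := by
                push_cast
                rw [pow_succ', Real.mul_rpow (by norm_num) (by positivity)]
              have e2 : ((2 : ℝ) ^ j) ^ θ * ((2 : ℝ) ^ j) ^ (-γ) = q ^ j := by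
                rw [← Real.rpow_add (by positivity), hq, ← Real.rpow_natCast, ← Real.rpow_natCast,
                  ← Real.rpow_mul (by norm_num), ← Real.rpow_mul (by norm_num)]
                congr 1
                ring
              rw [e1, ← e2]
              ring
    _ = C * (2 : ℝ) ^ θ * ∑ j ∈ s.image (fun i => Nat.log 2 (f i)), q ^ j := by
        rw [Finset.mul_sum]
    _ ≤ C * (2 : ℝ) ^ θ * ∑' j : ℕ, q ^ j := by
        gcongr
        exact hsum.sum_le_tsum _ fun j _ => by positivity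

end Pool.Agent.T2H21.RS
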