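import Pool.Agent.T2H21.RS.FBound
import Pool.Agent.T2H20.AH.Ch

/-! Triples ordered by radical, of any height. -/

set_option autoImplicit false

namespace Pool.Agent.T2H21.RS

open Finset

open Pool.Agent.T2H20.ABC Pool.Agent.T2H20.AH Pool.Agent.H785R2.ABC Pool.Agent.H785R2.ABC.EC in
/-- the large heights -/
theorem count_large (e : ℝ) (he : 0 < e) : ∃ M : ℕ, 1 ≤ M ∧ ∃ C : ℝ, 0 < C ∧
    ∀ X : ℕ, 1 ≤ X → ∀ s : Finset (ℕ × ℕ),
      (∀ t ∈ s, IsT t ∧ rad3 t ≤ X ∧ (rad3 t : ℝ) ^ (M : ℝ) ≤ ((t.1 + t.2 : ℕ) : ℝ)) →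
      (s.card : ℝ) ≤ C * (X : ℝ) ^ (1 / 3 + e) := by
  classical
  obtain ⟨M, hM1, C, hC, hc⟩ := exceptions_all e he
  refine ⟨M, hM1, C, hC, fun X hX s hs => ?_⟩
  have hX0 : (0 : ℝ) < X := by exact_mod_cast hX
  have hX1 : (1 : ℝ) ≤ X := by exact_mod_cast hX
  obtain ⟨B, hB⟩ : ∃ B, B = ⌊(X : ℝ) ^ ((1 : ℝ) / 3)⌋₊ := ⟨_, rfl⟩
  have hB1 : 1 ≤ B := by
    rw [hB]
    apply Nat.le_floor
    push_cast
    exact Real.one_le_rpow hX1 (by norm_num)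
  have hBX : (B : ℝ) ≤ (X : ℝ) ^ ((1 : ℝ) / 3) := by
    rw [hB]; exact Nat.floor_le (by positivity)
  have h1 := hc X B hX hB1 s (by
    intro q hq
    obtain ⟨⟨g1, g2, g3⟩, g4, g5⟩ := hs q hq
    refine ⟨g1, by omega, g3, g4, ?_, ?_⟩
    · obtain ⟨i, hi⟩ := exists_small g1 (by omega) g3
      refine ⟨i, ?_⟩
      rw [hB]
      apply Nat.le_floor
      have h2 : ((rad (num (tri q) i) : ℕ) : ℝ) ^ 3 ≤ X := by exact_mod_cast hi.trans g4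
      calc ((rad (num (tri q) i) : ℕ) : ℝ) =
            (((rad (num (tri q) i) : ℕ) : ℝ) ^ 3) ^ ((1 : ℝ) / 3) := by
            rw [← Real.rpow_natCast, ← Real.rpow_mul (by positivity)]
            norm_num
        _ ≤ (X : ℝ) ^ ((1 : ℝ) / 3) := Real.rpow_le_rpow (by positivity) h2 (by norm_num)
    · rw [Real.rpow_natCast] at g5
      exact_mod_cast g5)
  refine h1.trans ?_
  have h2 : ((B : ℝ) * X) ^ ((1 : ℝ) / 4) ≤ (X : ℝ) ^ ((1 : ℝ) / 3) := by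
    calc ((B : ℝ) * X) ^ ((1 : ℝ) / 4) ≤ ((X : ℝ) ^ ((1 : ℝ) / 3) * X) ^ ((1 : ℝ) / 4) := by
          apply Real.rpow_le_rpow (by positivity) _ (by norm_num)
          exact mul_le_mul_of_nonneg_right hBX hX0.le
      _ = (X : ℝ) ^ ((1 : ℝ) / 3) := by
          have : (X : ℝ) ^ ((1 : ℝ) / 3) * X = (X : ℝ) ^ ((4 : ℝ) / 3) := by
            conv_lhs => rw [← Real.rpow_one (X : ℝ)]
            rw [← Real.rpow_mul hX0.le, ← Real.rpow_add hX0]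
            norm_num
          rw [this, ← Real.rpow_mul hX0.le]
          norm_num
  calc C * (X : ℝ) ^ e * ((B : ℝ) * X) ^ ((1 : ℝ) / 4)
      ≤ C * (X : ℝ) ^ e * (X : ℝ) ^ ((1 : ℝ) / 3) :=
        mul_le_mul_of_nonneg_left h2 (by positivity)
    _ = C * (X : ℝ) ^ (1 / 3 + e) := by
        rw [mul_assoc, ← Real.rpow_add hX0]
        congr 2
        ring

/-- **All heights.** -/
theorem count_all (M e : ℝ) (hM : 0 < M) (he : 0 < e) :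
    ∃ C : ℝ, 0 < C ∧ ∀ X : ℕ, 1 ≤ X → ∀ s : Finset (ℕ × ℕ),
      (∀ t ∈ s, IsT t ∧ rad3 t ≤ X ∧ (rad3 t : ℝ) ^ M ≤ ((t.1 + t.2 : ℕ) : ℝ)) →
      (s.card : ℝ) ≤ C * (X : ℝ) ^ (max (1 - M) (4 / 7) + e) := by
  classical
  obtain ⟨K, hK1, C1, hC1, h1⟩ := count_large e he
  obtain ⟨C2, hC2, h2⟩ := count_mid M (max M K) e hM (le_max_left _ _) he
  refine ⟨C1 + C2, by positivity, fun X hX s hs => ?_⟩
  have hX1 : (1 : ℝ) ≤ X := by exact_mod_cast hX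
  have hX0 : (0 : ℝ) < X := by linarith
  have g1 := h1 X hX (s.filter fun t => (rad3 t : ℝ) ^ (K : ℝ) ≤ ((t.1 + t.2 : ℕ) : ℝ)) (by
    intro t ht
    rw [mem_filter] at ht
    obtain ⟨a1, a2, a3⟩ := hs t ht.1
    exact ⟨a1, a2, ht.2⟩)
  have g2 := h2 X hX (s.filter fun t => ¬ (rad3 t : ℝ) ^ (K : ℝ) ≤ ((t.1 + t.2 : ℕ) : ℝ)) (by
    intro t ht
    rw [mem_filter, not_le] at ht
    obtain ⟨a1, a2, a3⟩ := hs t ht.1
    refine ⟨a1, a2, a3, ht.2.le.trans ?_⟩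
    have r1 : (1 : ℝ) ≤ (rad3 t : ℝ) := by
      have : 1 ≤ rad3 t := Finset.prod_pos fun p hp => (Nat.prime_of_mem_primeFactors hp).pos
      exact_mod_cast this
    exact Real.rpow_le_rpow_of_exponent_le r1 (le_max_right _ _))
  rw [← card_filter_add_card_filter_not (s := s)
    (fun t => (rad3 t : ℝ) ^ (K : ℝ) ≤ ((t.1 + t.2 : ℕ) : ℝ))]
  push_cast at g1 g2 ⊢
  have e1 : (X : ℝ) ^ (1 / 3 + e) ≤ (X : ℝ) ^ (max (1 - M) (4 / 7) + e) := by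
    refine Real.rpow_le_rpow_of_exponent_le hX1 ?_
    have := le_max_right (1 - M) ((4 : ℝ) / 7)
    linarith
  calc _ ≤ C1 * (X : ℝ) ^ (1 / 3 + e) + C2 * (X : ℝ) ^ (max (1 - M) (4 / 7) + e) :=
        add_le_add g1 g2
    _ ≤ C1 * (X : ℝ) ^ (max (1 - M) (4 / 7) + e) + C2 * (X : ℝ) ^ (max (1 - M) (4 / 7) + e) := by
        gcongr
    _ = _ := by ring

/-- the radical is less than the cube of the largest member -/
theorem rad_cube {t : ℕ × ℕ} (h : IsT t) : (rad3 t : ℝ) ^ ((1 : ℝ) / 3) ≤ ((t.1 + t.2 : ℕ) : ℝ) := by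
  obtain ⟨h1, h2, h3⟩ := h
  have hm0 : t.1 * t.2 * (t.1 + t.2) ≠ 0 :=
    (Nat.mul_pos (Nat.mul_pos h1 (by omega)) (by omega)).ne'
  have hle : rad3 t ≤ (t.1 + t.2) ^ 3 := by
    unfold rad3
    refine (Nat.le_of_dvd (Nat.pos_of_ne_zero hm0) (Nat.prod_primeFactors_dvd _)).trans ?_
    calc t.1 * t.2 * (t.1 + t.2) ≤ (t.1 + t.2) * (t.1 + t.2) * (t.1 + t.2) :=
          Nat.mul_le_mul_right _ (Nat.mul_le_mul (by omega) (by omega))
      _ = _ := by ring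
  have hle' : (rad3 t : ℝ) ≤ ((t.1 + t.2 : ℕ) : ℝ) ^ 3 := by exact_mod_cast hle
  calc (rad3 t : ℝ) ^ ((1 : ℝ) / 3) ≤ (((t.1 + t.2 : ℕ) : ℝ) ^ 3) ^ ((1 : ℝ) / 3) :=
        Real.rpow_le_rpow (by positivity) hle' (by norm_num)
    _ = _ := by
        rw [← Real.rpow_natCast, ← Real.rpow_mul (by positivity)]
        norm_num

end Pool.Agent.T2H21.RS
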