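import Pool.Agent.T2H21.RS.Sec

/-! The choice of the parameters. -/

set_option autoImplicit false

namespace Pool.Agent.T2H21.RS

open Finset Filter Topology

theorem tail_small {ε : ℝ} (hε : 0 < ε) {η : ℝ} (hη : 0 < η) :
    ∃ D₀ : ℕ, ∀ D, D₀ ≤ D → ∀ M : ℕ, ∑ d ∈ Ioc D M, (d : ℝ) ^ (-(1 + ε)) ≤ η := by
  have hs : Summable fun d : ℕ => (d : ℝ) ^ (-(1 + ε)) :=
    Real.summable_nat_rpow.2 (by linarith)
  have h1 := hs.hasSum.tendsto_sum_nat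
  set Z := ∑' d : ℕ, (d : ℝ) ^ (-(1 + ε)) with hZ
  have h2 : ∀ᶠ n : ℕ in atTop, Z - η ≤ ∑ i ∈ range n, (i : ℝ) ^ (-(1 + ε)) :=
    h1.eventually (eventually_ge_nhds (by linarith))
  obtain ⟨D₀, hD₀⟩ := eventually_atTop.1 h2
  refine ⟨D₀, fun D hD M => ?_⟩
  have h3 := hD₀ (D + 1) (by omega)
  have h4 : (∑ i ∈ range (D + 1), (i : ℝ) ^ (-(1 + ε))) + ∑ d ∈ Ioc D M, (d : ℝ) ^ (-(1 + ε)) ≤
      Z := by
    rw [← sum_union (by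
      rw [disjoint_left]
      intro x hx hx'
      rw [mem_range] at hx
      rw [mem_Ioc] at hx'
      omega)]
    exact hs.sum_le_tsum _ fun i _ => by positivity
  linarith

/-- **The choice of the parameters.** -/
theorem params {γ κ η : ℝ} (hγ : 0 < γ) (hγ1 : γ < 1) (hκ : 0 < κ) (hκ1 : κ < 1)
    (hκγ : γ * (κ + 2) < κ + 1) (hη : 0 < η) :
    ∃ q P : ℕ, 0 < q ∧ 40 ≤ P ∧ (∀ p, p.Prime → p ≤ P → p ∣ q) ∧
      ∀ᶠ β : ℕ in atTop, 4096 * q ≤ ⌊(β : ℝ) ^ κ⌋₊ ∧ 2 * ⌊(β : ℝ) ^ κ⌋₊ ≤ β ∧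
        1024 * (WW q ⌊(β : ℝ) ^ κ⌋₊ β γ / (((⌊(β : ℝ) ^ κ⌋₊ : ℕ) : ℝ) * β) ^ 2) ≤ η := by
  set ε : ℝ := min ((1 - γ) / 2) (((κ + 1) - γ * (κ + 2)) / (4 * (κ + 2))) with hε
  have hε0 : 0 < ε := lt_min (by linarith) (by
    apply div_pos
    · linarith
    · linarith)
  have hε1 : γ + 2 * ε ≤ 1 := by
    have : ε ≤ (1 - γ) / 2 := min_le_left _ _
    linarith
  have hε2 : (κ + 2) * (γ + 2 * ε) < κ + 1 := by
    have h1 : ε ≤ ((κ + 1) - γ * (κ + 2)) / (4 * (κ + 2)) := min_le_right _ _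
    rw [le_div_iff₀ (by linarith)] at h1
    nlinarith
  obtain ⟨C, hC, hdiv⟩ := Pool.Agent.Helper112.divisor_bound (ε / 4) (by positivity)
  set K : ℝ := max 1 (C ^ 4) with hK
  have hK1 : 1 ≤ K := le_max_left _ _
  have hKd : ∀ d : ℕ, 1 ≤ d → (d.divisors.card : ℝ) ^ 4 ≤ K * (d : ℝ) ^ ε := by
    intro d hd
    have hd' : (0 : ℝ) ≤ d := Nat.cast_nonneg _
    calc (d.divisors.card : ℝ) ^ 4 ≤ (C * (d : ℝ) ^ (ε / 4)) ^ 4 := by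
          gcongr
          exact hdiv d hd
      _ = C ^ 4 * (d : ℝ) ^ ε := by
          rw [mul_pow, ← Real.rpow_natCast ((d : ℝ) ^ (ε / 4)), ← Real.rpow_mul hd']
          congr 2
          push_cast
          ring
      _ ≤ K * (d : ℝ) ^ ε := by
          gcongr
          exact le_max_right _ _
  obtain ⟨D₁, hD₁⟩ := tail_small hε0 (η := η / (3 * 1024 * 16 * K)) (by positivity)
  set P : ℕ := max 40 D₁ with hP
  set q : ℕ := P.factorial with hq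
  have hq0 : 0 < q := Nat.factorial_pos _
  have hq' : (0 : ℝ) < q := by exact_mod_cast hq0
  have hPq : ∀ p, p.Prime → p ≤ P → p ∣ q := fun p hp hpP => Nat.dvd_factorial hp.pos hpP
  obtain ⟨D₂, hD₂⟩ := tail_small hε0 (η := η / (3 * 1024 * (1024 * (q : ℝ) ^ 4 * K)))
    (by positivity)
  obtain ⟨D₃, hD₃⟩ := tail_small hε0 (η := (1 : ℝ)) one_pos
  refine ⟨q, P, hq0, le_max_left _ _, hPq, ?_⟩
  have ht1 : Tendsto (fun β : ℕ => ⌊(β : ℝ) ^ κ⌋₊) atTop atTop :=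
    tendsto_nat_floor_atTop.comp ((tendsto_rpow_atTop hκ).comp tendsto_natCast_atTop_atTop)
  have e1 := ht1.eventually_ge_atTop (4096 * q)
  have e2 := ht1.eventually_ge_atTop D₂
  have e3 := ht1.eventually_ge_atTop D₃
  have e4 : ∀ᶠ β : ℕ in atTop, 2 * (β : ℝ) ^ κ ≤ β := by
    have h1 : Tendsto (fun β : ℕ => (β : ℝ) ^ (1 - κ)) atTop atTop :=
      (tendsto_rpow_atTop (by linarith)).comp tendsto_natCast_atTop_atTop
    filter_upwards [h1.eventually_ge_atTop 2, eventually_gt_atTop 0] with β h2 h3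
    have hβ : (0 : ℝ) < β := by exact_mod_cast h3
    calc 2 * (β : ℝ) ^ κ ≤ (β : ℝ) ^ (1 - κ) * (β : ℝ) ^ κ := by gcongr
      _ = β := by
          rw [← Real.rpow_add hβ]
          simp
  set A : ℝ := 64 * (q : ℝ) ^ 2 * K + 2 * K ^ 2 with hA
  have hA0 : 0 < A := by positivity
  set s : ℝ := γ + 2 * ε with hs
  have hs0 : 0 < s := by positivity
  have e5 : ∀ᶠ β : ℕ in atTop, 1024 * ((64 * (q : ℝ) ^ 3) ^ s * (β : ℝ) ^ ((κ + 2) * s) * A) *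
      2 ≤ η / 3 * (β : ℝ) ^ (κ + 1) := by
    have hpos : 0 < (κ + 1) - (κ + 2) * s := by linarith
    have h1 : Tendsto (fun β : ℕ => (β : ℝ) ^ ((κ + 1) - (κ + 2) * s)) atTop atTop :=
      (tendsto_rpow_atTop hpos).comp tendsto_natCast_atTop_atTop
    filter_upwards [h1.eventually_ge_atTop (1024 * ((64 * (q : ℝ) ^ 3) ^ s * A) * 2 / (η / 3)),
      eventually_gt_atTop 0] with β h2 h3
    have hβ : (0 : ℝ) < β := by exact_mod_cast h3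
    rw [div_le_iff₀ (by positivity)] at h2
    calc 1024 * ((64 * (q : ℝ) ^ 3) ^ s * (β : ℝ) ^ ((κ + 2) * s) * A) * 2
        = (1024 * ((64 * (q : ℝ) ^ 3) ^ s * A) * 2) * (β : ℝ) ^ ((κ + 2) * s) := by ring
      _ ≤ ((β : ℝ) ^ ((κ + 1) - (κ + 2) * s) * (η / 3)) * (β : ℝ) ^ ((κ + 2) * s) := by gcongr
      _ = η / 3 * ((β : ℝ) ^ ((κ + 1) - (κ + 2) * s) * (β : ℝ) ^ ((κ + 2) * s)) := by ring
      _ = _ := by
          rw [← Real.rpow_add hβ]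
          congr 2
          ring
  filter_upwards [e1, e2, e3, e4, e5, eventually_gt_atTop 0] with β h1 h2 h3 h4 h5 h6
  have hβ : (0 : ℝ) < β := by exact_mod_cast h6
  set α : ℕ := ⌊(β : ℝ) ^ κ⌋₊ with hα
  have hα0 : 0 < α := by omega
  have hα' : (0 : ℝ) < α := by exact_mod_cast hα0
  have hα1 : (1 : ℝ) ≤ α := by exact_mod_cast hα0
  have hαle : (α : ℝ) ≤ (β : ℝ) ^ κ := Nat.floor_le (by positivity)
  have hαge : (β : ℝ) ^ κ / 2 ≤ α := by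
    have := Nat.lt_floor_add_one ((β : ℝ) ^ κ)
    rw [← hα] at this
    linarith
  have h2αβ : 2 * α ≤ β := by
    have : 2 * (α : ℝ) ≤ β := by linarith
    exact_mod_cast this
  refine ⟨h1, h2αβ, ?_⟩
  have hαβ : α ≤ β := by omega
  have hW := WW_le q α β P γ ε K hγ hε0 hε1 hK1 hKd hq0 hα0 hαβ hPq
  set N : ℕ := 64 * q ^ 3 * α * β ^ 2 with hN
  have hab : (0 : ℝ) < α * β := by positivity
  have t1 : ∑ d ∈ Ioc P α, (d : ℝ) ^ (-(1 + ε)) ≤ η / (3 * 1024 * 16 * K) :=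
    hD₁ P (le_max_right _ _) α
  have t2 : ∑ d ∈ Ioc α N, (d : ℝ) ^ (-(1 + ε)) ≤ η / (3 * 1024 * (1024 * (q : ℝ) ^ 4 * K)) :=
    hD₂ α h2 N
  have t3 : ∑ d ∈ Ioc α N, (d : ℝ) ^ (-(1 + ε)) ≤ 1 := hD₃ α h3 N
  have hNle : (N : ℝ) ≤ 64 * (q : ℝ) ^ 3 * (β : ℝ) ^ (κ + 2) := by
    rw [hN]
    push_cast
    calc 64 * (q : ℝ) ^ 3 * α * (β : ℝ) ^ 2 ≤ 64 * (q : ℝ) ^ 3 * (β : ℝ) ^ κ * (β : ℝ) ^ 2 := by
          gcongr
      _ = _ := by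
          rw [Real.rpow_add hβ, Real.rpow_two]
          ring
  have hNs : (N : ℝ) ^ s ≤ (64 * (q : ℝ) ^ 3) ^ s * (β : ℝ) ^ ((κ + 2) * s) := by
    calc (N : ℝ) ^ s ≤ (64 * (q : ℝ) ^ 3 * (β : ℝ) ^ (κ + 2)) ^ s := by gcongr
      _ = _ := by
          rw [Real.mul_rpow (by positivity) (by positivity), ← Real.rpow_mul hβ.le]
  have hsum0 : 0 ≤ ∑ d ∈ Ioc α N, (d : ℝ) ^ (-(1 + ε)) := sum_nonneg fun d _ => by positivity
  have hb1 : 1024 * (((α : ℝ) * β) ^ 2 * (16 * K * ∑ d ∈ Ioc P α, (d : ℝ) ^ (-(1 + ε)))) ≤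
      η / 3 * ((α : ℝ) * β) ^ 2 := by
    calc _ ≤ 1024 * (((α : ℝ) * β) ^ 2 * (16 * K * (η / (3 * 1024 * 16 * K)))) := by gcongr
      _ = _ := by
          field_simp
  have hb2 : 1024 * (((α : ℝ) * β) ^ 2 * (1024 * (q : ℝ) ^ 4 * K *
      ∑ d ∈ Ioc α N, (d : ℝ) ^ (-(1 + ε)))) ≤ η / 3 * ((α : ℝ) * β) ^ 2 := by
    calc _ ≤ 1024 * (((α : ℝ) * β) ^ 2 * (1024 * (q : ℝ) ^ 4 * K *
          (η / (3 * 1024 * (1024 * (q : ℝ) ^ 4 * K))))) := by gcongr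
      _ = _ := by
          field_simp
  have hb3 : 1024 * ((α : ℝ) * β * ((N : ℝ) ^ s *
      (64 * (q : ℝ) ^ 2 * K * (∑ d ∈ Ioc α N, (d : ℝ) ^ (-(1 + ε))) + 2 * K ^ 2))) ≤
      η / 3 * ((α : ℝ) * β) ^ 2 := by
    have h7 : 64 * (q : ℝ) ^ 2 * K * (∑ d ∈ Ioc α N, (d : ℝ) ^ (-(1 + ε))) + 2 * K ^ 2 ≤ A := by
      rw [hA]
      have : 64 * (q : ℝ) ^ 2 * K * (∑ d ∈ Ioc α N, (d : ℝ) ^ (-(1 + ε))) ≤
          64 * (q : ℝ) ^ 2 * K * 1 := by gcongr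
      linarith
    have h8 : 1024 * ((N : ℝ) ^ s * A) ≤ η / 3 * (α * β) := by
      have h9 : 1024 * ((64 * (q : ℝ) ^ 3) ^ s * (β : ℝ) ^ ((κ + 2) * s) * A) ≤
          η / 3 * ((β : ℝ) ^ (κ + 1) / 2) := by linarith
      calc 1024 * ((N : ℝ) ^ s * A) ≤
            1024 * ((64 * (q : ℝ) ^ 3) ^ s * (β : ℝ) ^ ((κ + 2) * s) * A) := by gcongr
        _ ≤ η / 3 * ((β : ℝ) ^ (κ + 1) / 2) := h9
        _ = η / 3 * ((β : ℝ) ^ κ / 2 * β) := by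
            rw [Real.rpow_add hβ, Real.rpow_one]
            ring
        _ ≤ _ := by gcongr
    calc _ ≤ 1024 * ((α : ℝ) * β * ((N : ℝ) ^ s * A)) := by gcongr
      _ = (α : ℝ) * β * (1024 * ((N : ℝ) ^ s * A)) := by ring
      _ ≤ (α : ℝ) * β * (η / 3 * (α * β)) := by gcongr
      _ = _ := by ring
  rw [← mul_div_assoc, div_le_iff₀ (by positivity)]
  calc 1024 * WW q α β γ ≤ 1024 * (((α : ℝ) * β) ^ 2 *
        (16 * K * ∑ d ∈ Ioc P α, (d : ℝ) ^ (-(1 + ε)) +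
        1024 * (q : ℝ) ^ 4 * K * ∑ d ∈ Ioc α N, (d : ℝ) ^ (-(1 + ε))) +
      (α : ℝ) * β * ((N : ℝ) ^ s *
        (64 * (q : ℝ) ^ 2 * K * (∑ d ∈ Ioc α N, (d : ℝ) ^ (-(1 + ε))) + 2 * K ^ 2))) := by
        gcongr
    _ = 1024 * (((α : ℝ) * β) ^ 2 * (16 * K * ∑ d ∈ Ioc P α, (d : ℝ) ^ (-(1 + ε)))) +
        1024 * (((α : ℝ) * β) ^ 2 * (1024 * (q : ℝ) ^ 4 * K *
          ∑ d ∈ Ioc α N, (d : ℝ) ^ (-(1 + ε)))) +
        1024 * ((α : ℝ) * β * ((N : ℝ) ^ s *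
        (64 * (q : ℝ) ^ 2 * K * (∑ d ∈ Ioc α N, (d : ℝ) ^ (-(1 + ε))) + 2 * K ^ 2))) := by ring
    _ ≤ η / 3 * ((α : ℝ) * β) ^ 2 + η / 3 * ((α : ℝ) * β) ^ 2 + η / 3 * ((α : ℝ) * β) ^ 2 :=
        add_le_add (add_le_add hb1 hb2) hb3
    _ = _ := by ring

end Pool.Agent.T2H21.RS
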