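import Mathlib
import Pool.Agent.Helper112.Arith

/-! A family of pairs of coprime integers with squarefree product `a b (a + b) / 2` free of small
primes: lower bound for its size, upper bounds for its members in sublattices. -/

set_option autoImplicit false

namespace Pool.Agent.T2H21.RS

open Finset

def aa (q : ℕ) (t : ℕ × ℕ) : ℕ := 2 * q * t.1 + 1

def bb (q : ℕ) (t : ℕ × ℕ) : ℕ := 2 * q * t.2 + 1

def hh (q : ℕ) (t : ℕ × ℕ) : ℕ := q * (t.1 + t.2) + 1

def mm (q : ℕ) (t : ℕ × ℕ) : ℕ := aa q t * bb q t * hh q t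

theorem add_eq (q : ℕ) (t : ℕ × ℕ) : aa q t + bb q t = 2 * hh q t := by
  unfold aa bb hh
  ring

/-- the box -/
def box (α β : ℕ) : Finset (ℕ × ℕ) := Ico α (2 * α) ×ˢ Ico β (2 * β)

open Classical in
/-- the family -/
noncomputable def fam (q α β : ℕ) : Finset (ℕ × ℕ) := (box α β).filter fun t => Squarefree (mm q t)

theorem card_ap (s : Finset ℕ) (N L M : ℕ) (hs : ∀ x ∈ s, N ≤ x ∧ x < N + L)
    (h : ∀ x ∈ s, ∀ y ∈ s, x ≡ y [MOD M]) : s.card ≤ L / M + 1 := by
  rw [← card_range (L / M + 1)]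
  refine card_le_card_of_injOn (fun x => (x - N) / M) ?_ ?_
  · intro x hx
    obtain ⟨h1, h2⟩ := hs x hx
    simp only [coe_range, Set.mem_Iio]
    have : (x - N) / M ≤ L / M := Nat.div_le_div_right (by omega)
    omega
  · intro x hx y hy hxy
    simp only at hxy
    obtain ⟨h1, h2⟩ := hs x hx
    obtain ⟨h3, h4⟩ := hs y hy
    have h5 : x - N ≡ y - N [MOD M] := by
      have := h x hx y hy
      have e1 : x = (x - N) + N := by omega
      have e2 : y = (y - N) + N := by omega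
      rw [e1, e2] at this
      exact Nat.ModEq.add_right_cancel' N this
    have h6 : (x - N) % M = (y - N) % M := h5
    have e1 := Nat.div_add_mod (x - N) M
    have e2 := Nat.div_add_mod (y - N) M
    rw [hxy, h6] at e1
    omega

theorem cop_q {q n x : ℕ} (h : n ∣ q * x + 1) : Nat.Coprime n q := by
  have h1 : Nat.Coprime (q * x + 1) q := by
    rw [add_comm]
    exact (Nat.coprime_add_mul_left_left 1 q x).2 (Nat.coprime_one_left q)
  exact Nat.Coprime.coprime_dvd_left h h1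

theorem modEq_of {q n x y : ℕ} (hx : n ∣ q * x + 1) (hy : n ∣ q * y + 1) : x ≡ y [MOD n] := by
  have hc := cop_q hx
  have h1 : q * x + 1 ≡ q * y + 1 [MOD n] :=
    ((Nat.modEq_zero_iff_dvd).2 hx).trans ((Nat.modEq_zero_iff_dvd).2 hy).symm
  exact Nat.ModEq.cancel_left_of_coprime hc (Nat.ModEq.add_right_cancel' 1 h1)

/-- one congruence -/
theorem card_one (q n α : ℕ) :
    ((Ico α (2 * α)).filter fun k => n ∣ 2 * q * k + 1).card ≤ α / n + 1 := by
  refine card_ap _ α α n ?_ ?_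
  · intro x hx
    simp only [mem_filter, mem_Ico] at hx
    omega
  · intro x hx y hy
    exact modEq_of (mem_filter.1 hx).2 (mem_filter.1 hy).2

/-- two congruences for the second coordinate -/
theorem card_two (q k n n' β : ℕ) (hc : Nat.Coprime n n') :
    ((Ico β (2 * β)).filter fun l => n ∣ 2 * q * l + 1 ∧ n' ∣ q * (k + l) + 1).card ≤
      β / (n * n') + 1 := by
  refine card_ap _ β β (n * n') ?_ ?_
  · intro x hx
    simp only [mem_filter, mem_Ico] at hx
    omega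
  · intro x hx y hy
    have hx' := (mem_filter.1 hx).2
    have hy' := (mem_filter.1 hy).2
    rw [← Nat.modEq_and_modEq_iff_modEq_mul hc]
    refine ⟨modEq_of hx'.1 hy'.1, ?_⟩
    exact Nat.ModEq.add_left_cancel' k (modEq_of hx'.2 hy'.2)

/-- **First upper bound.** -/
theorem card_lat (q d₁ d₂ d₃ α β : ℕ) (hc : Nat.Coprime d₂ d₃) :
    ((box α β).filter fun t => d₁ ∣ aa q t ∧ d₂ ∣ bb q t ∧ d₃ ∣ hh q t).card ≤
      (α / d₁ + 1) * (β / (d₂ * d₃) + 1) := by
  classical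
  have hsub : ((box α β).filter fun t => d₁ ∣ aa q t ∧ d₂ ∣ bb q t ∧ d₃ ∣ hh q t) ⊆
      ((Ico α (2 * α)).filter fun k => d₁ ∣ 2 * q * k + 1).biUnion fun k =>
        ((Ico β (2 * β)).filter fun l => d₂ ∣ 2 * q * l + 1 ∧ d₃ ∣ q * (k + l) + 1).image
          fun l => (k, l) := by
    rintro ⟨k, l⟩ ht
    rw [mem_filter, box, mem_product] at ht
    obtain ⟨⟨hk, hl⟩, e1, e2, e3⟩ := ht
    simp only [mem_biUnion, mem_filter, mem_image]
    exact ⟨k, ⟨hk, e1⟩, l, ⟨hl, e2, e3⟩, rfl⟩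
  refine (card_le_card hsub).trans (card_biUnion_le.trans ?_)
  calc _ ≤ ∑ k ∈ (Ico α (2 * α)).filter fun k => d₁ ∣ 2 * q * k + 1, (β / (d₂ * d₃) + 1) := by
        refine sum_le_sum fun k _ => card_image_le.trans ?_
        exact card_two q k d₂ d₃ β hc
    _ = ((Ico α (2 * α)).filter fun k => d₁ ∣ 2 * q * k + 1).card * (β / (d₂ * d₃) + 1) := by
        rw [sum_const, smul_eq_mul]
    _ ≤ _ := Nat.mul_le_mul_right _ (card_one q d₁ α)

/-- separated points of an interval -/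
theorem card_sep {ι : Type*} (s : Finset ι) (f : ι → ℝ) (u L δ : ℝ) (hδ : 0 < δ) (hL : 0 ≤ L)
    (hf : ∀ x ∈ s, u ≤ f x ∧ f x ≤ u + L)
    (h : ∀ x ∈ s, ∀ y ∈ s, x ≠ y → δ ≤ |f x - f y|) : (s.card : ℝ) ≤ L / δ + 2 := by
  classical
  have hcard : s.card ≤ (Icc ⌊u / δ⌋ ⌊(u + L) / δ⌋).card := by
    refine card_le_card_of_injOn (fun x => ⌊f x / δ⌋) ?_ ?_
    · intro x hx
      obtain ⟨h1, h2⟩ := hf x hx
      simp only [coe_Icc, Set.mem_Icc]
      exact ⟨Int.floor_le_floor (by gcongr), Int.floor_le_floor (by gcongr)⟩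
    · intro x hx y hy hxy
      simp only at hxy
      by_contra hne
      have h1 := h x hx y hy hne
      have h2 := Int.abs_sub_lt_one_of_floor_eq_floor hxy
      rw [← sub_div, abs_div, abs_of_pos hδ, div_lt_one hδ] at h2
      linarith
  rw [Int.card_Icc] at hcard
  have h1 := Int.floor_le ((u + L) / δ)
  have h2 := Int.lt_floor_add_one (u / δ)
  have h3 : ⌊u / δ⌋ ≤ ⌊(u + L) / δ⌋ := Int.floor_le_floor (by
    gcongr
    linarith)
  have h4 : ((⌊(u + L) / δ⌋ + 1 - ⌊u / δ⌋).toNat : ℝ) = (⌊(u + L) / δ⌋ : ℝ) + 1 - ⌊u / δ⌋ := by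
    have : ((⌊(u + L) / δ⌋ + 1 - ⌊u / δ⌋).toNat : ℤ) = ⌊(u + L) / δ⌋ + 1 - ⌊u / δ⌋ :=
      Int.toNat_of_nonneg (by omega)
    exact_mod_cast this
  have h5 : (s.card : ℝ) ≤ (⌊(u + L) / δ⌋ : ℝ) + 1 - ⌊u / δ⌋ := by
    rw [← h4]
    exact_mod_cast hcard
  have h6 : (u + L) / δ = u / δ + L / δ := add_div _ _ _
  linarith

theorem fam_cop {q : ℕ} {t : ℕ × ℕ} (h : Squarefree (mm q t)) :
    Nat.Coprime (aa q t) (bb q t) ∧ Nat.Coprime (aa q t) (hh q t) ∧
      Nat.Coprime (bb q t) (hh q t) := by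
  unfold mm at h
  have h1 : Squarefree (aa q t * bb q t) := h.of_mul_left
  have h2 := Nat.coprime_of_squarefree_mul h
  rw [Nat.coprime_mul_iff_left] at h2
  exact ⟨Nat.coprime_of_squarefree_mul h1, h2.1, h2.2⟩

theorem box_bounds {q α β : ℕ} (hq : 0 < q) {t : ℕ × ℕ} (h : t ∈ box α β) :
    2 * q * α ≤ aa q t ∧ aa q t ≤ 4 * q * α ∧ 2 * q * β ≤ bb q t ∧ bb q t ≤ 4 * q * β ∧
      q * β ≤ hh q t ∧ hh q t ≤ 2 * q * (α + β) := by
  simp only [box, mem_product, mem_Ico] at h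
  obtain ⟨⟨h1, h2⟩, h3, h4⟩ := h
  unfold aa bb hh
  refine ⟨?_, ?_, ?_, ?_, ?_, ?_⟩
  · nlinarith
  · nlinarith
  · nlinarith
  · nlinarith
  · nlinarith
  · nlinarith

/-- **Second upper bound.** -/
theorem card_lat2 (q d α β : ℕ) (hq : 0 < q) (hα : 0 < α) (hβ : 0 < β) (hd : 0 < d)
    (T : Finset (ℕ × ℕ)) (hT : ∀ t ∈ T, t ∈ fam q α β)
    (hdet : ∀ t ∈ T, ∀ t' ∈ T, (d : ℤ) ∣ (aa q t : ℤ) * bb q t' - aa q t' * bb q t) :
    (T.card : ℝ) ≤ 32 * (q : ℝ) ^ 2 * α * β / d + 2 := by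
  have hq' : (0 : ℝ) < q := by exact_mod_cast hq
  have hα' : (0 : ℝ) < α := by exact_mod_cast hα
  have hβ' : (0 : ℝ) < β := by exact_mod_cast hβ
  have hd' : (0 : ℝ) < d := by exact_mod_cast hd
  have hb0 : ∀ t : ℕ × ℕ, (0 : ℝ) < bb q t := fun t => by
    unfold bb
    positivity
  have ha0 : ∀ t : ℕ × ℕ, (0 : ℝ) < aa q t := fun t => by
    unfold aa
    positivity
  have hbnd : ∀ t ∈ T, 2 * q * α ≤ aa q t ∧ aa q t ≤ 4 * q * α ∧ 2 * q * β ≤ bb q t ∧
      bb q t ≤ 4 * q * β := by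
    intro t ht
    have := hT t ht
    unfold fam at this
    obtain ⟨h1, h2, h3, h4, -, -⟩ := box_bounds hq (mem_filter.1 this).1
    exact ⟨h1, h2, h3, h4⟩
  have key := card_sep T (fun t => (aa q t : ℝ) / bb q t) 0 (2 * α / β)
    (d / (16 * (q : ℝ) ^ 2 * (β : ℝ) ^ 2)) (by positivity) (by positivity) ?_ ?_
  · refine key.trans (le_of_eq ?_)
    field_simp
    ring
  · intro t ht
    obtain ⟨h1, h2, h3, h4⟩ := hbnd t ht
    refine ⟨by have := ha0 t; have := hb0 t; positivity, ?_⟩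
    rw [zero_add, div_le_div_iff₀ (hb0 t) hβ']
    have e1 : (aa q t : ℝ) ≤ 4 * q * α := by exact_mod_cast h2
    have e2 : 2 * (q : ℝ) * β ≤ bb q t := by exact_mod_cast h3
    calc (aa q t : ℝ) * β ≤ 4 * q * α * β := by gcongr
      _ = 2 * α * (2 * q * β) := by ring
      _ ≤ 2 * α * bb q t := by gcongr
  · intro t ht t' ht' hne
    obtain ⟨h1, h2, h3, h4⟩ := hbnd t ht
    obtain ⟨h1', h2', h3', h4'⟩ := hbnd t' ht'
    have hne0 : (aa q t : ℤ) * bb q t' - aa q t' * bb q t ≠ 0 := by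
      intro h0
      apply hne
      have e : aa q t * bb q t' = aa q t' * bb q t := by
        have : (aa q t : ℤ) * bb q t' = aa q t' * bb q t := by linarith
        exact_mod_cast this
      have c1 := (fam_cop (mem_filter.1 (hT t ht)).2).1
      have c2 := (fam_cop (mem_filter.1 (hT t' ht')).2).1
      have d1 : aa q t ∣ aa q t' := by
        have : aa q t ∣ aa q t' * bb q t := ⟨_, e.symm⟩
        exact c1.dvd_of_dvd_mul_right this
      have d2 : aa q t' ∣ aa q t := by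
        have : aa q t' ∣ aa q t * bb q t' := ⟨_, e⟩
        exact c2.dvd_of_dvd_mul_right this
      have ea : aa q t = aa q t' := Nat.dvd_antisymm d1 d2
      have eb : bb q t' = bb q t := by
        rw [ea] at e
        exact Nat.eq_of_mul_eq_mul_left (by unfold aa; omega) e
      unfold aa at ea
      unfold bb at eb
      have e1 : t.1 = t'.1 := by
        have : 2 * q * t.1 = 2 * q * t'.1 := by omega
        exact Nat.eq_of_mul_eq_mul_left (by omega) this
      have e2 : t.2 = t'.2 := by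
        have : 2 * q * t.2 = 2 * q * t'.2 := by omega
        exact Nat.eq_of_mul_eq_mul_left (by omega) this
      exact Prod.ext e1 e2
    have hge : (d : ℤ) ≤ |(aa q t : ℤ) * bb q t' - aa q t' * bb q t| :=
      Int.le_of_dvd (abs_pos.2 hne0) ((dvd_abs _ _).2 (hdet t ht t' ht'))
    have hge' : (d : ℝ) ≤ |(aa q t : ℝ) * bb q t' - aa q t' * bb q t| := by
      have : ((d : ℤ) : ℝ) ≤ ((|(aa q t : ℤ) * bb q t' - aa q t' * bb q t| : ℤ) : ℝ) := by
        exact_mod_cast hge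
      rw [Int.cast_abs] at this
      push_cast at this
      exact this
    have p1 := hb0 t
    have p2 := hb0 t'
    rw [div_sub_div _ _ p1.ne' p2.ne', abs_div, abs_of_pos (mul_pos p1 p2),
      div_le_div_iff₀ (by positivity) (by positivity)]
    have e4 : (bb q t : ℝ) ≤ 4 * q * β := by exact_mod_cast h4
    have e4' : (bb q t' : ℝ) ≤ 4 * q * β := by exact_mod_cast h4'
    have e5 : (aa q t : ℝ) * bb q t' - bb q t * aa q t' =
        (aa q t : ℝ) * bb q t' - aa q t' * bb q t := by ring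
    rw [e5]
    calc (d : ℝ) * (bb q t * bb q t') ≤
        |(aa q t : ℝ) * bb q t' - aa q t' * bb q t| * ((4 * q * β) * (4 * q * β)) := by gcongr
      _ = _ := by ring

end Pool.Agent.T2H21.RS
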