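import Pool.Agent.T2H21.RS.Cnt

/-! Members of the family divisible by `d`, and the size of the family. -/

set_option autoImplicit false

namespace Pool.Agent.T2H21.RS

open Finset

/-- the members of the family with `d ∣ a b (a + b) / 2` -/
noncomputable def famd (q α β d : ℕ) : Finset (ℕ × ℕ) := (fam q α β).filter fun t => d ∣ mm q t

theorem gcd_prod {q d : ℕ} {t : ℕ × ℕ} (h : Squarefree (mm q t)) (hd : d ∣ mm q t) :
    Nat.gcd d (aa q t) * Nat.gcd d (bb q t) * Nat.gcd d (hh q t) = d := by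
  obtain ⟨c1, c2, c3⟩ := fam_cop h
  rw [← Nat.Coprime.gcd_mul d c1, ← Nat.Coprime.gcd_mul d (Nat.Coprime.mul_left c2 c3)]
  exact Nat.gcd_eq_left hd

/-- the pieces of `famd` -/
noncomputable def piece (q α β d : ℕ) (u : ℕ × ℕ) : Finset (ℕ × ℕ) :=
  (famd q α β d).filter fun t => Nat.gcd d (aa q t) = u.1 ∧ Nat.gcd d (bb q t) = u.2

theorem famd_le (q α β d : ℕ) (hd : d ≠ 0) (B : ℝ)
    (h : ∀ u, ((piece q α β d u).card : ℝ) ≤ B) :
    ((famd q α β d).card : ℝ) ≤ (d.divisors.card : ℝ) ^ 2 * B := by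
  classical
  have hmaps : ∀ t ∈ famd q α β d, (Nat.gcd d (aa q t), Nat.gcd d (bb q t)) ∈
      d.divisors ×ˢ d.divisors := by
    intro t _
    rw [mem_product]
    exact ⟨Nat.mem_divisors.2 ⟨Nat.gcd_dvd_left _ _, hd⟩,
      Nat.mem_divisors.2 ⟨Nat.gcd_dvd_left _ _, hd⟩⟩
  have e := card_eq_sum_card_fiberwise hmaps
  have e2 : ∀ u ∈ d.divisors ×ˢ d.divisors,
      ((famd q α β d).filter fun t => (Nat.gcd d (aa q t), Nat.gcd d (bb q t)) = u) =
        piece q α β d u := by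
    intro u _
    unfold piece
    refine filter_congr fun t _ => ?_
    rw [Prod.ext_iff]
  rw [e]
  push_cast
  calc ∑ u ∈ d.divisors ×ˢ d.divisors,
        (((famd q α β d).filter fun t => (Nat.gcd d (aa q t), Nat.gcd d (bb q t)) = u).card : ℝ)
      ≤ ∑ u ∈ d.divisors ×ˢ d.divisors, B := by
        refine sum_le_sum fun u hu => ?_
        rw [e2 u hu]
        exact h u
    _ = _ := by
        rw [sum_const, card_product, nsmul_eq_mul]
        push_cast
        ring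

theorem piece_spec {q α β d : ℕ} {u t₀ : ℕ × ℕ} (h₀ : t₀ ∈ piece q α β d u) :
    ∃ d₃ : ℕ, u.1 * u.2 * d₃ = d ∧ Nat.Coprime u.1 u.2 ∧ Nat.Coprime u.1 d₃ ∧
      Nat.Coprime u.2 d₃ ∧ ∀ t ∈ piece q α β d u, u.1 ∣ aa q t ∧ u.2 ∣ bb q t ∧ d₃ ∣ hh q t := by
  have hsq : ∀ t ∈ piece q α β d u, Squarefree (mm q t) ∧ d ∣ mm q t ∧
      Nat.gcd d (aa q t) = u.1 ∧ Nat.gcd d (bb q t) = u.2 := by
    intro t ht
    unfold piece famd at ht
    rw [mem_filter, mem_filter] at ht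
    unfold fam at ht
    exact ⟨(mem_filter.1 ht.1.1).2, ht.1.2, ht.2.1, ht.2.2⟩
  obtain ⟨s0, s1, s2, s3⟩ := hsq t₀ h₀
  obtain ⟨c1, c2, c3⟩ := fam_cop s0
  have hp0 := gcd_prod s0 s1
  have hdpos : 0 < d := by
    rcases Nat.eq_zero_or_pos d with h | h
    · rw [h, zero_dvd_iff] at s1
      rw [s1] at s0
      exact absurd s0 not_squarefree_zero
    · exact h
  have hu : 0 < u.1 * u.2 := by
    rw [← s2, ← s3]
    exact Nat.mul_pos (Nat.gcd_pos_of_pos_left _ hdpos) (Nat.gcd_pos_of_pos_left _ hdpos)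
  refine ⟨Nat.gcd d (hh q t₀), ?_, ?_, ?_, ?_, ?_⟩
  · rw [← s2, ← s3]
    exact hp0
  · rw [← s2, ← s3]
    exact Nat.Coprime.coprime_dvd_left (Nat.gcd_dvd_right _ _)
      (Nat.Coprime.coprime_dvd_right (Nat.gcd_dvd_right _ _) c1)
  · rw [← s2]
    exact Nat.Coprime.coprime_dvd_left (Nat.gcd_dvd_right _ _)
      (Nat.Coprime.coprime_dvd_right (Nat.gcd_dvd_right _ _) c2)
  · rw [← s3]
    exact Nat.Coprime.coprime_dvd_left (Nat.gcd_dvd_right _ _)
      (Nat.Coprime.coprime_dvd_right (Nat.gcd_dvd_right _ _) c3)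
  · intro t ht
    obtain ⟨r0, r1, r2, r3⟩ := hsq t ht
    refine ⟨?_, ?_, ?_⟩
    · rw [← r2]
      exact Nat.gcd_dvd_right _ _
    · rw [← r3]
      exact Nat.gcd_dvd_right _ _
    · have e1 := gcd_prod r0 r1
      rw [r2, r3] at e1
      rw [s2, s3] at hp0
      have : Nat.gcd d (hh q t₀) = Nat.gcd d (hh q t) :=
        Nat.eq_of_mul_eq_mul_left hu (hp0.trans e1.symm)
      rw [this]
      exact Nat.gcd_dvd_right _ _

/-- **`d` large.** -/
theorem famd_large (q α β d : ℕ) (hq : 0 < q) (hα : 0 < α) (hβ : 0 < β) (hd : 0 < d) :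
    ((famd q α β d).card : ℝ) ≤
      (d.divisors.card : ℝ) ^ 2 * (32 * (q : ℝ) ^ 2 * α * β / d + 2) := by
  refine famd_le q α β d hd.ne' _ fun u => ?_
  rcases (piece q α β d u).eq_empty_or_nonempty with h | ⟨t₀, h₀⟩
  · rw [h, card_empty, Nat.cast_zero]
    positivity
  · obtain ⟨d₃, e, c12, c13, c23, hdv⟩ := piece_spec h₀
    refine card_lat2 q d α β hq hα hβ hd _ ?_ ?_
    · intro t ht
      unfold piece famd at ht
      rw [mem_filter, mem_filter] at ht
      exact ht.1.1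
    · intro t ht t' ht'
      obtain ⟨x1, x2, x3⟩ := hdv t ht
      obtain ⟨y1, y2, y3⟩ := hdv t' ht'
      have z1 : ((u.1 : ℕ) : ℤ) ∣ (aa q t : ℤ) * bb q t' - aa q t' * bb q t :=
        dvd_sub (Dvd.dvd.mul_right (Int.natCast_dvd_natCast.2 x1) _)
          (Dvd.dvd.mul_right (Int.natCast_dvd_natCast.2 y1) _)
      have z2 : ((u.2 : ℕ) : ℤ) ∣ (aa q t : ℤ) * bb q t' - aa q t' * bb q t :=
        dvd_sub (Dvd.dvd.mul_left (Int.natCast_dvd_natCast.2 y2) _)
          (Dvd.dvd.mul_left (Int.natCast_dvd_natCast.2 x2) _)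
      have z3 : ((d₃ : ℕ) : ℤ) ∣ (aa q t : ℤ) * bb q t' - aa q t' * bb q t := by
        have e1 : ((aa q t + bb q t : ℕ) : ℤ) = 2 * hh q t := by
          rw [add_eq]
          push_cast
          ring
        have e2 : ((aa q t' + bb q t' : ℕ) : ℤ) = 2 * hh q t' := by
          rw [add_eq]
          push_cast
          ring
        push_cast at e1 e2
        have e3 : (aa q t : ℤ) * bb q t' - aa q t' * bb q t =
            aa q t * (2 * hh q t') - aa q t' * (2 * hh q t) := by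
          rw [← e1, ← e2]
          ring
        rw [e3]
        exact dvd_sub (Dvd.dvd.mul_left (Dvd.dvd.mul_left (Int.natCast_dvd_natCast.2 y3) _) _)
          (Dvd.dvd.mul_left (Dvd.dvd.mul_left (Int.natCast_dvd_natCast.2 x3) _) _)
      have w12 : IsCoprime ((u.1 : ℕ) : ℤ) ((u.2 : ℕ) : ℤ) := Nat.isCoprime_iff_coprime.2 c12
      have w13 : IsCoprime ((u.1 : ℕ) : ℤ) ((d₃ : ℕ) : ℤ) := Nat.isCoprime_iff_coprime.2 c13
      have w23 : IsCoprime ((u.2 : ℕ) : ℤ) ((d₃ : ℕ) : ℤ) := Nat.isCoprime_iff_coprime.2 c23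
      have w := (IsCoprime.mul_left w13 w23).mul_dvd (w12.mul_dvd z1 z2) z3
      rw [← e]
      push_cast
      exact w

/-- **`d` small.** -/
theorem famd_small (q α β d : ℕ) (hα : 0 < α) (hαβ : α ≤ β) (hd : 0 < d) (hdα : d ≤ α) :
    ((famd q α β d).card : ℝ) ≤ (d.divisors.card : ℝ) ^ 2 * (4 * α * β / d) := by
  refine famd_le q α β d hd.ne' _ fun u => ?_
  rcases (piece q α β d u).eq_empty_or_nonempty with h | ⟨t₀, h₀⟩
  · rw [h, card_empty, Nat.cast_zero]
    positivity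
  · obtain ⟨d₃, e, c12, c13, c23, hdv⟩ := piece_spec h₀
    have hu1 : 0 < u.1 := Nat.pos_of_ne_zero fun h => by
      rw [h] at e
      omega
    have hu2 : 0 < u.2 := Nat.pos_of_ne_zero fun h => by
      rw [h] at e
      omega
    have hu3 : 0 < d₃ := Nat.pos_of_ne_zero fun h => by
      rw [h] at e
      omega
    have hsub : piece q α β d u ⊆
        (box α β).filter fun t => u.1 ∣ aa q t ∧ u.2 ∣ bb q t ∧ d₃ ∣ hh q t := by
      intro t ht
      have h1 := hdv t ht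
      unfold piece famd at ht
      rw [mem_filter, mem_filter] at ht
      have h2 := ht.1.1
      unfold fam at h2
      exact mem_filter.2 ⟨(mem_filter.1 h2).1, h1⟩
    have h1 := (card_le_card hsub).trans (card_lat q u.1 u.2 d₃ α β c23)
    have l1 : u.1 ≤ α := by
      refine le_trans ?_ hdα
      rw [← e, mul_assoc]
      exact Nat.le_mul_of_pos_right _ (Nat.mul_pos hu2 hu3)
    have l2 : u.2 * d₃ ≤ β := by
      refine le_trans ?_ (hdα.trans hαβ)
      rw [← e, mul_assoc]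
      exact Nat.le_mul_of_pos_left _ hu1
    have r1 : ((α / u.1 + 1 : ℕ) : ℝ) ≤ 2 * α / u.1 := by
      have p1 : (0 : ℝ) < u.1 := by exact_mod_cast hu1
      have : ((α / u.1 : ℕ) : ℝ) ≤ (α : ℝ) / u.1 := Nat.cast_div_le
      have : (1 : ℝ) ≤ (α : ℝ) / u.1 := by
        rw [le_div_iff₀ p1, one_mul]
        exact_mod_cast l1
      push_cast
      rw [two_mul, add_div]
      linarith
    have r2 : ((β / (u.2 * d₃) + 1 : ℕ) : ℝ) ≤ 2 * β / (u.2 * d₃) := by
      have p1 : (0 : ℝ) < (u.2 : ℝ) * d₃ := by exact_mod_cast Nat.mul_pos hu2 hu3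
      have h5 : ((β / (u.2 * d₃) : ℕ) : ℝ) ≤ (β : ℝ) / ((u.2 * d₃ : ℕ) : ℝ) := Nat.cast_div_le
      push_cast at h5
      have : (1 : ℝ) ≤ (β : ℝ) / (u.2 * d₃) := by
        rw [le_div_iff₀ p1, one_mul]
        exact_mod_cast l2
      push_cast
      rw [two_mul, add_div]
      linarith
    have h1' : ((piece q α β d u).card : ℝ) ≤
        ((α / u.1 + 1 : ℕ) : ℝ) * ((β / (u.2 * d₃) + 1 : ℕ) : ℝ) := by exact_mod_cast h1
    have hd' : (d : ℝ) = u.1 * (u.2 * d₃) := by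
      rw [← e]
      push_cast
      ring
    have p1 : (0 : ℝ) < u.1 := by exact_mod_cast hu1
    have p2 : (0 : ℝ) < (u.2 : ℝ) * d₃ := by exact_mod_cast Nat.mul_pos hu2 hu3
    calc ((piece q α β d u).card : ℝ) ≤
          ((α / u.1 + 1 : ℕ) : ℝ) * ((β / (u.2 * d₃) + 1 : ℕ) : ℝ) := h1'
      _ ≤ (2 * α / u.1) * (2 * β / (u.2 * d₃)) := by gcongr
      _ = _ := by
          rw [hd', div_mul_div_comm]
          ring

end Pool.Agent.T2H21.RS
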