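import Pool.Agent.T2H21.RS.Cnt2

/-! Lower bound for the size of the family. -/

set_option autoImplicit false

namespace Pool.Agent.T2H21.RS

open Finset

theorem sum_inv_sq (P N : ℕ) (hP : 0 < P) :
    ∑ n ∈ Ioc P N, (1 : ℝ) / (n : ℝ) ^ 2 ≤ 1 / P := by
  rcases le_total N P with h | h
  · rw [Ioc_eq_empty_of_le h, sum_empty]
    positivity
  · have h1 := sum_Ioc_inv_sq_le_sub (α := ℝ) hP.ne' h
    have h2 : (0 : ℝ) ≤ (N : ℝ)⁻¹ := by positivity
    simp only [one_div]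
    linarith

theorem prime_sq_cases {p x y z : ℕ} (hp : p.Prime) (h : p * p ∣ x * y * z) :
    p * p ∣ x ∨ p * p ∣ y ∨ p * p ∣ z ∨ (p ∣ x ∧ p ∣ y) ∨ (p ∣ x ∧ p ∣ z) ∨ (p ∣ y ∧ p ∣ z) := by
  have hc : ∀ w, ¬ p ∣ w → Nat.Coprime (p * p) w := fun w hw =>
    Nat.Coprime.mul_left ((Nat.Prime.coprime_iff_not_dvd hp).2 hw)
      ((Nat.Prime.coprime_iff_not_dvd hp).2 hw)
  by_cases hx : p ∣ x
  · by_cases hy : p ∣ y
    · exact Or.inr (Or.inr (Or.inr (Or.inl ⟨hx, hy⟩)))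
    · by_cases hz : p ∣ z
      · exact Or.inr (Or.inr (Or.inr (Or.inr (Or.inl ⟨hx, hz⟩))))
      · left
        have h1 := (hc z hz).dvd_of_dvd_mul_right h
        exact (hc y hy).dvd_of_dvd_mul_right h1
  · have h1 : p * p ∣ y * z := by
      rw [mul_assoc] at h
      exact (hc x hx).dvd_of_dvd_mul_left h
    by_cases hy : p ∣ y
    · by_cases hz : p ∣ z
      · exact Or.inr (Or.inr (Or.inr (Or.inr (Or.inr ⟨hy, hz⟩))))
      · exact Or.inr (Or.inl ((hc z hz).dvd_of_dvd_mul_right h1))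
    · exact Or.inr (Or.inr (Or.inl ((hc y hy).dvd_of_dvd_mul_left h1)))

def B1 (q α β n : ℕ) : Finset (ℕ × ℕ) :=
  ((Ico α (2 * α)).filter fun k => n ∣ 2 * q * k + 1) ×ˢ
    ((Ico β (2 * β)).filter fun l => n ∣ 2 * q * l + 1)

def B2 (q α β n : ℕ) : Finset (ℕ × ℕ) :=
  ((Ico α (2 * α)).filter fun k => n * n ∣ 2 * q * k + 1) ×ˢ (Ico β (2 * β))

def B3 (q α β n : ℕ) : Finset (ℕ × ℕ) :=
  (Ico α (2 * α)) ×ˢ ((Ico β (2 * β)).filter fun l => n * n ∣ 2 * q * l + 1)

def B4 (q α β n : ℕ) : Finset (ℕ × ℕ) :=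
  (box α β).filter fun t => 1 ∣ aa q t ∧ 1 ∣ bb q t ∧ n * n ∣ hh q t

theorem bad_cover {q α β P : ℕ} (hαβ : α ≤ β) (hP : ∀ p, p.Prime → p ≤ P → p ∣ q)
    {t : ℕ × ℕ} (ht : t ∈ box α β) (hbad : ¬ Squarefree (mm q t)) :
    t ∈ (Ioc P (4 * q * α)).biUnion (B1 q α β) ∨
      t ∈ (Ioc P (Nat.sqrt (4 * q * α))).biUnion (B2 q α β) ∨
      t ∈ (Ioc P (Nat.sqrt (4 * q * β))).biUnion (B3 q α β) ∨
      t ∈ (Ioc P (Nat.sqrt (4 * q * β))).biUnion (B4 q α β) := by
  have hq : 0 < q ∨ q = 0 := Nat.eq_zero_or_pos q |>.symm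
  rcases hq with hq | hq
  swap
  · exfalso
    apply hbad
    subst hq
    simp [mm, aa, bb, hh]
  obtain ⟨b1, b2, b3, b4, b5, b6⟩ := box_bounds hq ht
  rw [Nat.squarefree_iff_prime_squarefree] at hbad
  push Not at hbad
  obtain ⟨p, hp, hpp⟩ := hbad
  have hbox := ht
  rw [box, mem_product] at ht
  have ca : p ∣ aa q t → P < p := by
    intro h
    by_contra hle
    have h1 := hP p hp (by omega)
    have h2 : Nat.Coprime p (2 * q) := cop_q h
    have h3 : p ∣ 2 * q := Dvd.dvd.mul_left h1 2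
    have := Nat.eq_one_of_dvd_coprimes h2 dvd_rfl h3
    exact hp.one_lt.ne' this
  have cb : p ∣ bb q t → P < p := by
    intro h
    by_contra hle
    have h1 := hP p hp (by omega)
    have h2 : Nat.Coprime p (2 * q) := cop_q h
    have h3 : p ∣ 2 * q := Dvd.dvd.mul_left h1 2
    have := Nat.eq_one_of_dvd_coprimes h2 dvd_rfl h3
    exact hp.one_lt.ne' this
  have ch : p ∣ hh q t → P < p := by
    intro h
    by_contra hle
    have h1 := hP p hp (by omega)
    have h2 : Nat.Coprime p q := cop_q h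
    have := Nat.eq_one_of_dvd_coprimes h2 dvd_rfl h1
    exact hp.one_lt.ne' this
  have hmem1 : p ∣ aa q t → p ∣ bb q t → t ∈ (Ioc P (4 * q * α)).biUnion (B1 q α β) := by
    intro h1 h2
    rw [mem_biUnion]
    refine ⟨p, mem_Ioc.2 ⟨ca h1, ?_⟩, ?_⟩
    · exact (Nat.le_of_dvd (by unfold aa; omega) h1).trans b2
    · rw [B1, mem_product, mem_filter, mem_filter]
      exact ⟨⟨ht.1, h1⟩, ht.2, h2⟩
  have hsum := add_eq q t
  have hodd : p ∣ aa q t → p ≠ 2 := by
    intro h h2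
    subst h2
    have : aa q t % 2 = 1 := by
      unfold aa
      rw [mul_assoc]
      omega
    omega
  have hodd' : p ∣ bb q t → p ≠ 2 := by
    intro h h2
    subst h2
    have : bb q t % 2 = 1 := by
      unfold bb
      rw [mul_assoc]
      omega
    omega
  rcases prime_sq_cases hp hpp with h | h | h | ⟨h1, h2⟩ | ⟨h1, h2⟩ | ⟨h1, h2⟩
  · right
    left
    rw [mem_biUnion]
    refine ⟨p, mem_Ioc.2 ⟨ca (dvd_trans (dvd_mul_left p p) h), ?_⟩, ?_⟩
    · rw [Nat.le_sqrt]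
      exact (Nat.le_of_dvd (by unfold aa; omega) h).trans b2
    · rw [B2, mem_product, mem_filter]
      exact ⟨⟨ht.1, h⟩, ht.2⟩
  · right
    right
    left
    rw [mem_biUnion]
    refine ⟨p, mem_Ioc.2 ⟨cb (dvd_trans (dvd_mul_left p p) h), ?_⟩, ?_⟩
    · rw [Nat.le_sqrt]
      exact (Nat.le_of_dvd (by unfold bb; omega) h).trans b4
    · rw [B3, mem_product, mem_filter]
      exact ⟨ht.1, ht.2, h⟩
  · right
    right
    right
    rw [mem_biUnion]
    refine ⟨p, mem_Ioc.2 ⟨ch (dvd_trans (dvd_mul_left p p) h), ?_⟩, ?_⟩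
    · rw [Nat.le_sqrt]
      refine (Nat.le_of_dvd (by unfold hh; omega) h).trans (b6.trans ?_)
      calc 2 * q * (α + β) ≤ 2 * q * (β + β) := by gcongr
        _ = 4 * q * β := by ring
    · rw [B4, mem_filter]
      exact ⟨hbox, one_dvd _, one_dvd _, h⟩
  · exact Or.inl (hmem1 h1 h2)
  · left
    refine hmem1 h1 ?_
    have h3 : p ∣ aa q t + bb q t := by
      rw [hsum]
      exact Dvd.dvd.mul_left h2 2
    exact (Nat.dvd_add_right h1).1 h3
  · left
    refine hmem1 ?_ h1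
    have h3 : p ∣ aa q t + bb q t := by
      rw [hsum]
      exact Dvd.dvd.mul_left h2 2
    exact (Nat.dvd_add_left h1).1 h3

theorem sqrt_real (n : ℕ) (x : ℝ) (hx : 0 ≤ x) (h : (n : ℝ) ≤ x ^ 2) : (Nat.sqrt n : ℝ) ≤ x := by
  have h1 : ((Nat.sqrt n : ℕ) : ℝ) ^ 2 ≤ (n : ℝ) := by
    have := Nat.sqrt_le' n
    exact_mod_cast this
  exact abs_le_of_sq_le_sq' (h1.trans h) hx |>.2

/-- **The size of the family.** -/
theorem fam_lower (q α β P : ℕ) (hq : 0 < q) (hP40 : 40 ≤ P) (hP : ∀ p, p.Prime → p ≤ P → p ∣ q)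
    (hα : 4096 * q ≤ α) (hαβ : α ≤ β) :
    (α : ℝ) * β / 2 ≤ (fam q α β).card := by
  classical
  have hα0 : 0 < α := by omega
  have hβ0 : 0 < β := by omega
  have hα' : (0 : ℝ) < α := by exact_mod_cast hα0
  have hβ' : (0 : ℝ) < β := by exact_mod_cast hβ0
  have hP' : (40 : ℝ) ≤ P := by exact_mod_cast hP40
  have hPpos : (0 : ℝ) < P := by linarith
  have hP0 : 0 < P := by omega
  set bad := (box α β).filter fun t => ¬ Squarefree (mm q t) with hbad
  have hcard : (fam q α β).card + bad.card = α * β := by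
    unfold fam
    rw [hbad, card_filter_add_card_filter_not, box, card_product, Nat.card_Ico, Nat.card_Ico]
    congr 1 <;> omega
  have hsub : bad ⊆ (Ioc P (4 * q * α)).biUnion (B1 q α β) ∪
      ((Ioc P (Nat.sqrt (4 * q * α))).biUnion (B2 q α β) ∪
      ((Ioc P (Nat.sqrt (4 * q * β))).biUnion (B3 q α β) ∪
      (Ioc P (Nat.sqrt (4 * q * β))).biUnion (B4 q α β))) := by
    intro t ht
    rw [hbad, mem_filter] at ht
    have := bad_cover hαβ hP ht.1 ht.2
    simp only [mem_union]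
    exact this
  have hle : bad.card ≤ (∑ n ∈ Ioc P (4 * q * α), (B1 q α β n).card) +
      ((∑ n ∈ Ioc P (Nat.sqrt (4 * q * α)), (B2 q α β n).card) +
      ((∑ n ∈ Ioc P (Nat.sqrt (4 * q * β)), (B3 q α β n).card) +
      ∑ n ∈ Ioc P (Nat.sqrt (4 * q * β)), (B4 q α β n).card)) := by
    refine (card_le_card hsub).trans ((card_union_le _ _).trans ?_)
    refine add_le_add card_biUnion_le ((card_union_le _ _).trans ?_)
    refine add_le_add card_biUnion_le ((card_union_le _ _).trans ?_)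
    exact add_le_add card_biUnion_le card_biUnion_le
  have hn0 : ∀ {N n : ℕ}, n ∈ Ioc P N → (0 : ℝ) < n := by
    intro N n hn
    have := (mem_Ioc.1 hn).1
    exact_mod_cast (by omega : 0 < n)
  have hqr : (0 : ℝ) < q := by exact_mod_cast hq
  -- first sum
  have s1 : ∑ n ∈ Ioc P (4 * q * α), ((B1 q α β n).card : ℝ) ≤
      4 * (α * β) / P + 8 * q * β := by
    have hterm : ∀ n ∈ Ioc P (4 * q * α), ((B1 q α β n).card : ℝ) ≤
        4 * (α * β) * (1 / (n : ℝ) ^ 2) + 2 * β / α := by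
      intro n hn
      have hnpos := hn0 hn
      have h1 : (B1 q α β n).card ≤ (α / n + 1) * (β / n + 1) := by
        rw [B1, card_product]
        exact Nat.mul_le_mul (card_one q n α) (card_one q n β)
      have h2 : ((B1 q α β n).card : ℝ) ≤ ((α / n + 1 : ℕ) : ℝ) * ((β / n + 1 : ℕ) : ℝ) := by
        exact_mod_cast h1
      have h4 : ((β / n : ℕ) : ℝ) ≤ (β : ℝ) / n := Nat.cast_div_le
      rcases le_or_gt n α with hnα | hnα
      · have h3 : ((α / n : ℕ) : ℝ) ≤ (α : ℝ) / n := Nat.cast_div_le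
        have h5 : (1 : ℝ) ≤ (α : ℝ) / n := by
          rw [le_div_iff₀ hnpos, one_mul]
          exact_mod_cast hnα
        have h6 : (α : ℝ) / n ≤ (β : ℝ) / n := by gcongr
        have h7 : ((α / n + 1 : ℕ) : ℝ) ≤ 2 * ((α : ℝ) / n) := by
          push_cast
          linarith
        have h8 : ((β / n + 1 : ℕ) : ℝ) ≤ 2 * ((β : ℝ) / n) := by
          push_cast
          linarith
        have h9 : (0 : ℝ) ≤ 2 * β / α := by positivity
        calc ((B1 q α β n).card : ℝ) ≤ ((α / n + 1 : ℕ) : ℝ) * ((β / n + 1 : ℕ) : ℝ) := h2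
          _ ≤ (2 * ((α : ℝ) / n)) * (2 * ((β : ℝ) / n)) := by gcongr
          _ = 4 * (α * β) * (1 / (n : ℝ) ^ 2) := by
              field_simp
              ring
          _ ≤ _ := by linarith
      · rw [Nat.div_eq_of_lt hnα] at h2
        have h5 : (β : ℝ) / n ≤ (β : ℝ) / α := by gcongr
        have h6 : (1 : ℝ) ≤ (β : ℝ) / α := by
          rw [le_div_iff₀ hα', one_mul]
          exact_mod_cast hαβ
        have h9 : (0 : ℝ) ≤ 4 * (α * β) * (1 / (n : ℝ) ^ 2) := by positivity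
        push_cast at h2
        have h10 : 2 * (β : ℝ) / α = β / α + β / α := by ring
        rw [h10]
        linarith
    calc ∑ n ∈ Ioc P (4 * q * α), ((B1 q α β n).card : ℝ)
        ≤ ∑ n ∈ Ioc P (4 * q * α), (4 * (α * β) * (1 / (n : ℝ) ^ 2) + 2 * (β : ℝ) / α) :=
          sum_le_sum hterm
      _ = 4 * (α * β) * (∑ n ∈ Ioc P (4 * q * α), 1 / (n : ℝ) ^ 2) +
          ((4 * q * α - P : ℕ) : ℝ) * (2 * β / α) := by
          rw [sum_add_distrib, ← mul_sum, sum_const, Nat.card_Ioc, nsmul_eq_mul]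
      _ ≤ 4 * (α * β) * (1 / P) + ((4 * q * α : ℕ) : ℝ) * (2 * β / α) := by
          gcongr
          · exact sum_inv_sq P _ hP0
          · exact Nat.sub_le _ _
      _ = 4 * (α * β) / P + 8 * q * β := by
          push_cast
          field_simp
          ring
  have hsq : ∀ (s : ℕ) (γ : ℝ) (f : ℕ → ℝ), 0 ≤ γ → (∀ n ∈ Ioc P s, f n ≤ γ / (n : ℝ) ^ 2 + 1) →
      ∑ n ∈ Ioc P s, f n ≤ γ / P + s := by
    intro s γ f hγ hf
    calc ∑ n ∈ Ioc P s, f n ≤ ∑ n ∈ Ioc P s, (γ * (1 / (n : ℝ) ^ 2) + 1) := by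
          refine sum_le_sum fun n hn => (hf n hn).trans (le_of_eq ?_)
          ring
      _ = γ * (∑ n ∈ Ioc P s, 1 / (n : ℝ) ^ 2) + ((s - P : ℕ) : ℝ) * 1 := by
          rw [sum_add_distrib, ← mul_sum, sum_const, Nat.card_Ioc, nsmul_eq_mul]
      _ ≤ γ * (1 / P) + (s : ℝ) * 1 := by
          gcongr
          · exact sum_inv_sq P _ hP0
          · exact Nat.sub_le _ _
      _ = _ := by ring
  have hdiv : ∀ x n : ℕ, 0 < n → ((x / (n * n) + 1 : ℕ) : ℝ) ≤ (x : ℝ) / (n : ℝ) ^ 2 + 1 := by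
    intro x n hn
    have h4 : ((x / (n * n) : ℕ) : ℝ) ≤ (x : ℝ) / ((n * n : ℕ) : ℝ) := Nat.cast_div_le
    push_cast at h4 ⊢
    rw [pow_two]
    linarith
  have s2 : ∑ n ∈ Ioc P (Nat.sqrt (4 * q * α)), ((B2 q α β n).card : ℝ) ≤
      β * (α / P + Nat.sqrt (4 * q * α)) := by
    have : ∀ n ∈ Ioc P (Nat.sqrt (4 * q * α)), ((B2 q α β n).card : ℝ) ≤
        β * ((α / (n * n) + 1 : ℕ) : ℝ) := by
      intro n _
      have h1 : (B2 q α β n).card ≤ β * (α / (n * n) + 1) := by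
        rw [B2, card_product, Nat.card_Ico, mul_comm]
        exact Nat.mul_le_mul (by omega) (card_one q (n * n) α)
      exact_mod_cast h1
    refine (sum_le_sum this).trans ?_
    rw [← mul_sum]
    gcongr
    exact hsq _ α (fun n => ((α / (n * n) + 1 : ℕ) : ℝ)) hα'.le fun n hn =>
      hdiv α n (by have := (mem_Ioc.1 hn).1; omega)
  have s3 : ∑ n ∈ Ioc P (Nat.sqrt (4 * q * β)), ((B3 q α β n).card : ℝ) ≤
      α * (β / P + Nat.sqrt (4 * q * β)) := by
    have : ∀ n ∈ Ioc P (Nat.sqrt (4 * q * β)), ((B3 q α β n).card : ℝ) ≤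
        α * ((β / (n * n) + 1 : ℕ) : ℝ) := by
      intro n _
      have h1 : (B3 q α β n).card ≤ α * (β / (n * n) + 1) := by
        rw [B3, card_product, Nat.card_Ico]
        exact Nat.mul_le_mul (by omega) (card_one q (n * n) β)
      exact_mod_cast h1
    refine (sum_le_sum this).trans ?_
    rw [← mul_sum]
    gcongr
    exact hsq _ β (fun n => ((β / (n * n) + 1 : ℕ) : ℝ)) hβ'.le fun n hn =>
      hdiv β n (by have := (mem_Ioc.1 hn).1; omega)
  have s4 : ∑ n ∈ Ioc P (Nat.sqrt (4 * q * β)), ((B4 q α β n).card : ℝ) ≤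
      2 * α * (β / P + Nat.sqrt (4 * q * β)) := by
    have : ∀ n ∈ Ioc P (Nat.sqrt (4 * q * β)), ((B4 q α β n).card : ℝ) ≤
        (2 * α) * ((β / (n * n) + 1 : ℕ) : ℝ) := by
      intro n _
      have h1 := card_lat q 1 1 (n * n) α β (Nat.coprime_one_left _)
      have h2 : (B4 q α β n).card ≤ (2 * α) * (β / (n * n) + 1) := by
        refine h1.trans ?_
        rw [Nat.div_one, one_mul]
        exact Nat.mul_le_mul_right _ (by omega)
      exact_mod_cast h2
    refine (sum_le_sum this).trans ?_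
    rw [← mul_sum]
    gcongr
    exact hsq _ β (fun n => ((β / (n * n) + 1 : ℕ) : ℝ)) hβ'.le fun n hn =>
      hdiv β n (by have := (mem_Ioc.1 hn).1; omega)
  have hq4 : 4096 * (q : ℝ) ≤ α := by exact_mod_cast hα
  have hαβ' : (α : ℝ) ≤ β := by exact_mod_cast hαβ
  have r1 : (Nat.sqrt (4 * q * α) : ℝ) ≤ α / 32 := by
    refine sqrt_real _ _ (by positivity) ?_
    push_cast
    nlinarith
  have r2 : (Nat.sqrt (4 * q * β) : ℝ) ≤ β / 32 := by
    refine sqrt_real _ _ (by positivity) ?_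
    push_cast
    nlinarith
  have hle' : (bad.card : ℝ) ≤ (∑ n ∈ Ioc P (4 * q * α), ((B1 q α β n).card : ℝ)) +
      ((∑ n ∈ Ioc P (Nat.sqrt (4 * q * α)), ((B2 q α β n).card : ℝ)) +
      ((∑ n ∈ Ioc P (Nat.sqrt (4 * q * β)), ((B3 q α β n).card : ℝ)) +
      ∑ n ∈ Ioc P (Nat.sqrt (4 * q * β)), ((B4 q α β n).card : ℝ))) := by
    exact_mod_cast hle
  have hcard' : ((fam q α β).card : ℝ) + bad.card = α * β := by exact_mod_cast hcard
  have hab : (0 : ℝ) < α * β := by positivity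
  have t1 : 4 * ((α : ℝ) * β) / P ≤ 4 * (α * β) / 40 := by gcongr
  have t2 : (β : ℝ) * (α / P + Nat.sqrt (4 * q * α)) ≤ β * (α / 40 + α / 32) := by gcongr
  have t3 : (α : ℝ) * (β / P + Nat.sqrt (4 * q * β)) ≤ α * (β / 40 + β / 32) := by gcongr
  have t4 : 2 * (α : ℝ) * (β / P + Nat.sqrt (4 * q * β)) ≤ 2 * α * (β / 40 + β / 32) := by gcongr
  have t5 : 8 * (q : ℝ) * β ≤ (α * β) / 512 := by
    have : 8 * (q : ℝ) ≤ α / 512 := by linarith
    calc 8 * (q : ℝ) * β ≤ (α / 512) * β := by gcongr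
      _ = _ := by ring
  have u2 : (β : ℝ) * (α / 40 + α / 32) = (α * β) * (9 / 160) := by ring
  have u3 : (α : ℝ) * (β / 40 + β / 32) = (α * β) * (9 / 160) := by ring
  have u4 : 2 * (α : ℝ) * (β / 40 + β / 32) = (α * β) * (9 / 80) := by ring
  rw [u2] at t2
  rw [u3] at t3
  rw [u4] at t4
  linarith

end Pool.Agent.T2H21.RS
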