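import Pool.Agent.T2H21.RS.Sec
import Pool.Agent.T2H21.RS.Prob

/-! The events that all primes of a number are selected. -/

set_option autoImplicit false

namespace Pool.Agent.T2H21.RS

open MeasureTheory ProbabilityTheory Finset

variable {Ω : Type*} [MeasurableSpace Ω]

/-- all primes of `s` are selected -/
def Sel (E : ℕ → Set Ω) (s : Finset ℕ) : Set Ω := ⋂ p ∈ s, E p

theorem sel_meas {E : ℕ → Set Ω} (hE : ∀ p, MeasurableSet (E p)) (s : Finset ℕ) :
    MeasurableSet (Sel E s) := s.measurableSet_biInter fun p _ => hE p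

theorem sel_prob (P : Measure Ω) [IsProbabilityMeasure P] {E : ℕ → Set Ω} (hind : iIndepSet E P)
    {γ : ℝ} (hP : ∀ p : ℕ, p.Prime → P (E p) = ENNReal.ofReal ((p : ℝ) ^ (-γ)))
    (s : Finset ℕ) (hs : ∀ p ∈ s, p.Prime) :
    P.real (Sel E s) = ((∏ p ∈ s, p : ℕ) : ℝ) ^ (-γ) := by
  unfold Sel Measure.real
  rw [hind.meas_biInter, ENNReal.toReal_prod]
  have : ∀ p ∈ s, (P (E p)).toReal = (p : ℝ) ^ (-γ) := by
    intro p hp
    rw [hP p (hs p hp), ENNReal.toReal_ofReal (Real.rpow_nonneg (Nat.cast_nonneg _) _)]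
  rw [prod_congr rfl this, Real.finsetProd_rpow _ _ fun p _ => Nat.cast_nonneg _]
  push_cast
  rfl

omit [MeasurableSpace Ω] in
theorem sel_inter (E : ℕ → Set Ω) (s s' : Finset ℕ) : Sel E s ∩ Sel E s' = Sel E (s ∪ s') := by
  classical
  unfold Sel
  ext ω
  simp only [Set.mem_inter_iff, Set.mem_iInter, mem_union]
  constructor
  · rintro ⟨h1, h2⟩ p (hp | hp)
    · exact h1 p hp
    · exact h2 p hp
  · intro h
    exact ⟨fun p hp => h p (Or.inl hp), fun p hp => h p (Or.inr hp)⟩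

theorem prod_union_sq {m m' : ℕ} (hm : Squarefree m) (hm' : Squarefree m') :
    (∏ p ∈ m.primeFactors ∪ m'.primeFactors, p) * Nat.gcd m m' = m * m' := by
  have h1 : ∏ p ∈ m.primeFactors, p = m := Nat.prod_primeFactors_of_squarefree hm
  have h2 : ∏ p ∈ m'.primeFactors, p = m' := Nat.prod_primeFactors_of_squarefree hm'
  have h3 : ∏ p ∈ m.primeFactors ∩ m'.primeFactors, p = Nat.gcd m m' := by
    rw [← Nat.primeFactors_gcd hm.ne_zero hm'.ne_zero]
    exact Nat.prod_primeFactors_of_squarefree (hm.squarefree_of_dvd (Nat.gcd_dvd_left _ _))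
  rw [← h3, prod_union_inter, h1, h2]

/-- the probability that no member of the family is supported on the random set -/
theorem prob_none (P : Measure Ω) [IsProbabilityMeasure P] {E : ℕ → Set Ω}
    (hE : ∀ p, MeasurableSet (E p)) (hind : iIndepSet E P)
    {γ : ℝ} (hγ : 0 < γ) (hγ1 : γ ≤ 1)
    (hP : ∀ p : ℕ, p.Prime → P (E p) = ENNReal.ofReal ((p : ℝ) ^ (-γ)))
    (q α β P₀ : ℕ) (hq : 0 < q) (hP40 : 40 ≤ P₀) (hPq : ∀ p, p.Prime → p ≤ P₀ → p ∣ q)
    (hα : 4096 * q ≤ α) (hαβ : α ≤ β) :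
    P.real {ω | ∀ t ∈ fam q α β, ω ∉ Sel E (mm q t).primeFactors} ≤
      1024 * (WW q α β γ / ((α : ℝ) * β) ^ 2) := by
  classical
  have hα0 : 0 < α := by omega
  have hβ0 : 0 < β := by omega
  have hα' : (0 : ℝ) < α := by exact_mod_cast hα0
  have hβ' : (0 : ℝ) < β := by exact_mod_cast hβ0
  have hq' : (0 : ℝ) < q := by exact_mod_cast hq
  set F := fam q α β with hF
  have hFmem : ∀ t ∈ F, t ∈ box α β ∧ Squarefree (mm q t) := by
    intro t ht
    rw [hF] at ht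
    unfold fam at ht
    exact mem_filter.1 ht
  have hprime : ∀ m : ℕ, ∀ p ∈ m.primeFactors, p.Prime := fun m p hp =>
    Nat.prime_of_mem_primeFactors hp
  have hSt : ∀ t ∈ F, P.real (Sel E (mm q t).primeFactors) = ((mm q t : ℕ) : ℝ) ^ (-γ) := by
    intro t ht
    rw [sel_prob P hind hP _ (hprime _), Nat.prod_primeFactors_of_squarefree (hFmem t ht).2]
  set μ : ℝ := ∑ t ∈ F, P.real (Sel E (mm q t).primeFactors) with hμ
  have key := second_moment P F (fun t => Sel E (mm q t).primeFactors)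
    (fun t => sel_meas hE _) μ hμ
  set N : ℝ := ((64 * q ^ 3 * α * β ^ 2 : ℕ) : ℝ) with hN
  have hNpos : 0 < N := by
    rw [hN]
    exact_mod_cast (by positivity : 0 < 64 * q ^ 3 * α * β ^ 2)
  set L : ℝ := ((4 * q ^ 3 * α * β ^ 2 : ℕ) : ℝ) with hL
  have hLpos : 0 < L := by
    rw [hL]
    exact_mod_cast (by positivity : 0 < 4 * q ^ 3 * α * β ^ 2)
  have hNL : N = 16 * L := by
    rw [hN, hL]
    push_cast
    ring
  have hμlow : (F.card : ℝ) * N ^ (-γ) ≤ μ := by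
    rw [hμ, ← nsmul_eq_mul, ← sum_const]
    refine sum_le_sum fun t ht => ?_
    rw [hSt t ht]
    refine Real.rpow_le_rpow_of_nonpos (by exact_mod_cast mm_pos q t) ?_ (by linarith)
    rw [hN]
    exact_mod_cast mm_le hq hαβ (hFmem t ht).1
  -- the variance
  have hvar : (∑ t ∈ F, ∑ t' ∈ F, P.real (Sel E (mm q t).primeFactors ∩
      Sel E (mm q t').primeFactors)) - μ ^ 2 ≤ (L ^ (-γ)) ^ 2 * WW q α β γ := by
    have e1 : μ ^ 2 = ∑ t ∈ F, ∑ t' ∈ F, P.real (Sel E (mm q t).primeFactors) *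
        P.real (Sel E (mm q t').primeFactors) := by
      rw [hμ, pow_two, sum_mul_sum]
    rw [e1, ← sum_sub_distrib]
    unfold WW
    rw [mul_sum, ← hF]
    refine sum_le_sum fun t ht => ?_
    rw [← sum_sub_distrib, mul_sum]
    refine sum_le_sum fun t' ht' => ?_
    have hm1 : (0 : ℝ) < (mm q t : ℕ) := by exact_mod_cast mm_pos q t
    have hm2 : (0 : ℝ) < (mm q t' : ℕ) := by exact_mod_cast mm_pos q t'
    have hg0 : 0 < Nat.gcd (mm q t) (mm q t') := Nat.gcd_pos_of_pos_left _ (mm_pos q t)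
    have hg : (0 : ℝ) < (Nat.gcd (mm q t) (mm q t') : ℕ) := by exact_mod_cast hg0
    have hprod := prod_union_sq (hFmem t ht).2 (hFmem t' ht').2
    have e2 : P.real (Sel E (mm q t).primeFactors ∩ Sel E (mm q t').primeFactors) =
        ((mm q t : ℕ) : ℝ) ^ (-γ) * ((mm q t' : ℕ) : ℝ) ^ (-γ) *
          ((Nat.gcd (mm q t) (mm q t') : ℕ) : ℝ) ^ γ := by
      rw [sel_inter, sel_prob P hind hP _ (by
        intro p hp
        rcases mem_union.1 hp with h | h
        · exact hprime _ p h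
        · exact hprime _ p h)]
      have h3 : ((∏ p ∈ (mm q t).primeFactors ∪ (mm q t').primeFactors, p : ℕ) : ℝ) =
          ((mm q t : ℕ) : ℝ) * ((mm q t' : ℕ) : ℝ) / ((Nat.gcd (mm q t) (mm q t') : ℕ) : ℝ) := by
        rw [eq_div_iff hg.ne']
        exact_mod_cast hprod
      rw [h3, Real.div_rpow (by positivity) hg.le, Real.mul_rpow hm1.le hm2.le,
        Real.rpow_neg hg.le γ, div_inv_eq_mul]
    rw [e2, hSt t ht, hSt t' ht']
    have hl1 : ((mm q t : ℕ) : ℝ) ^ (-γ) ≤ L ^ (-γ) := by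
      refine Real.rpow_le_rpow_of_nonpos hLpos ?_ (by linarith)
      rw [hL]
      exact_mod_cast le_mm hq (hFmem t ht).1
    have hl2 : ((mm q t' : ℕ) : ℝ) ^ (-γ) ≤ L ^ (-γ) := by
      refine Real.rpow_le_rpow_of_nonpos hLpos ?_ (by linarith)
      rw [hL]
      exact_mod_cast le_mm hq (hFmem t' ht').1
    have hp1 : (0 : ℝ) ≤ ((mm q t : ℕ) : ℝ) ^ (-γ) := by positivity
    have hp2 : (0 : ℝ) ≤ ((mm q t' : ℕ) : ℝ) ^ (-γ) := by positivity
    split_ifs with h1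
    · have h4 : ((mm q t : ℕ) : ℝ) ^ (-γ) * ((mm q t' : ℕ) : ℝ) ^ (-γ) *
          ((Nat.gcd (mm q t) (mm q t') : ℕ) : ℝ) ^ γ ≤
          L ^ (-γ) * L ^ (-γ) * ((Nat.gcd (mm q t) (mm q t') : ℕ) : ℝ) ^ γ := by gcongr
      have h5 : 0 ≤ ((mm q t : ℕ) : ℝ) ^ (-γ) * ((mm q t' : ℕ) : ℝ) ^ (-γ) := by positivity
      rw [pow_two]
      linarith
    · have h6 : Nat.gcd (mm q t) (mm q t') = 1 := by omega
      rw [h6, Nat.cast_one, Real.one_rpow]
      simp
  have hFcard := fam_lower q α β P₀ hq hP40 hPq hα hαβ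
  rw [← hF] at hFcard
  have hFpos : (0 : ℝ) < F.card := lt_of_lt_of_le (by positivity) hFcard
  have hWW0 : 0 ≤ WW q α β γ := by
    unfold WW
    refine sum_nonneg fun t _ => sum_nonneg fun t' _ => ?_
    split_ifs
    · positivity
    · exact le_rfl
  have hpr0 : 0 ≤ P.real {ω | ∀ t ∈ F, ω ∉ Sel E (mm q t).primeFactors} := measureReal_nonneg
  have hN0 : 0 < N ^ (-γ) := Real.rpow_pos_of_pos hNpos _
  have hL0 : 0 < L ^ (-γ) := Real.rpow_pos_of_pos hLpos _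
  have hLN : L ^ (-γ) ≤ 16 * N ^ (-γ) := by
    rw [hNL, Real.mul_rpow (by norm_num) hLpos.le]
    have h16 : (1 : ℝ) / 16 ≤ (16 : ℝ) ^ (-γ) := by
      rw [show (1 : ℝ) / 16 = (16 : ℝ) ^ (-1 : ℝ) by rw [Real.rpow_neg_one]; norm_num]
      exact Real.rpow_le_rpow_of_exponent_le (by norm_num) (by linarith)
    nlinarith
  set pr := P.real {ω | ∀ t ∈ F, ω ∉ Sel E (mm q t).primeFactors} with hpr
  have h1 : ((α : ℝ) * β / 2 * N ^ (-γ)) ^ 2 * pr ≤ (16 * N ^ (-γ)) ^ 2 * WW q α β γ := by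
    calc ((α : ℝ) * β / 2 * N ^ (-γ)) ^ 2 * pr ≤ μ ^ 2 * pr := by
          have : (α : ℝ) * β / 2 * N ^ (-γ) ≤ μ := le_trans (by gcongr) hμlow
          gcongr
      _ ≤ (L ^ (-γ)) ^ 2 * WW q α β γ := key.trans hvar
      _ ≤ _ := by gcongr
  have h2 : (N ^ (-γ)) ^ 2 * (((α : ℝ) * β) ^ 2 * pr) ≤
      (N ^ (-γ)) ^ 2 * (1024 * WW q α β γ) := by nlinarith
  have h3 := le_of_mul_le_mul_left h2 (by positivity)
  rw [← mul_div_assoc, le_div_iff₀ (by positivity)]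
  linarith

end Pool.Agent.T2H21.RS
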