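import Pool.Agent.T2H21.RS.Inf
import Pool.Agent.W221.ABC.Main7

/-! Triples ordered by radical, of height at most a power of the radical. -/

set_option autoImplicit false

namespace Pool.Agent.T2H21.RS

open Finset

theorem Fx_le (l : ℝ) (_hl : 0 ≤ l) : Pool.Agent.W221.ABC7.Fx l ≤ max (l - 1) (4 * l / 7) := by
  unfold Pool.Agent.W221.ABC7.Fx
  split_ifs with h1 h2 h3 h4 h5
  · exact le_max_right _ _
  · exact le_trans (by linarith) (le_max_right _ _)
  · exact le_trans (by linarith) (le_max_right _ _)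
  · exact le_trans (by linarith) (le_max_right _ _)
  · exact le_trans (by linarith) (le_max_right _ _)
  · exact le_max_left _ _

/-- **The middle range.** -/
theorem count_mid (M K e : ℝ) (hM : 0 < M) (hMK : M ≤ K) (he : 0 < e) :
    ∃ C : ℝ, 0 < C ∧ ∀ X : ℕ, 1 ≤ X → ∀ s : Finset (ℕ × ℕ),
      (∀ t ∈ s, IsT t ∧ rad3 t ≤ X ∧ (rad3 t : ℝ) ^ M ≤ ((t.1 + t.2 : ℕ) : ℝ) ∧
        ((t.1 + t.2 : ℕ) : ℝ) ≤ (rad3 t : ℝ) ^ K) →
      (s.card : ℝ) ≤ C * (X : ℝ) ^ (max (1 - M) (4 / 7) + e) := by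
  classical
  have hK : 0 < K := by linarith
  set δ : ℝ := e / (2 * K) with hδ
  have hδ0 : 0 < δ := by positivity
  set lam : ℕ → ℝ := fun i => 1 / K + i * δ with hlam
  have hlam0 : ∀ i, 1 / K ≤ lam i := fun i => by
    rw [hlam]
    simp only
    have : (0 : ℝ) ≤ i * δ := by positivity
    linarith
  have hlampos : ∀ i, 0 < lam i := fun i => lt_of_lt_of_le (by positivity) (hlam0 i)
  choose C hC using fun i : ℕ =>
    Pool.Agent.W221.ABC7.count_FxB 1 (lam (i + 1)) δ (hlampos (i + 1)) hδ0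
  set I : ℕ := ⌊(1 / M) / δ⌋₊ + 1 with hI
  set idx : ℕ × ℕ → ℕ := fun t =>
    ⌊(Real.log (rad3 t) / Real.log ((t.1 + t.2 : ℕ) : ℝ) - 1 / K) / δ⌋₊ with hidx
  refine ⟨(∑ i ∈ range I, |C i|) + 1, by
    have : 0 ≤ ∑ i ∈ range I, |C i| := sum_nonneg fun i _ => abs_nonneg _
    linarith, ?_⟩
  intro X hX s hs
  have hX1 : (1 : ℝ) ≤ X := by exact_mod_cast hX
  have hX0 : (0 : ℝ) < X := by linarith
  -- properties of the members
  have hprop : ∀ t ∈ s, (1 : ℝ) < ((t.1 + t.2 : ℕ) : ℝ) ∧ (1 : ℝ) ≤ (rad3 t : ℝ) ∧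
      lam (idx t) ≤ Real.log (rad3 t) / Real.log ((t.1 + t.2 : ℕ) : ℝ) ∧
      Real.log (rad3 t) / Real.log ((t.1 + t.2 : ℕ) : ℝ) < lam (idx t + 1) ∧
      Real.log (rad3 t) / Real.log ((t.1 + t.2 : ℕ) : ℝ) ≤ 1 / M := by
    intro t ht
    obtain ⟨⟨h1, h2, h3⟩, h4, h5, h6⟩ := hs t ht
    have c1 : (1 : ℝ) < ((t.1 + t.2 : ℕ) : ℝ) := by
      exact_mod_cast (by omega : 1 < t.1 + t.2)
    have r1 : (1 : ℝ) ≤ (rad3 t : ℝ) := by
      have : 1 ≤ rad3 t := Finset.prod_pos fun p hp => (Nat.prime_of_mem_primeFactors hp).pos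
      exact_mod_cast this
    have hlc : 0 < Real.log ((t.1 + t.2 : ℕ) : ℝ) := Real.log_pos c1
    have hr0 : (0 : ℝ) < (rad3 t : ℝ) := by linarith
    have l1 : M * Real.log (rad3 t) ≤ Real.log ((t.1 + t.2 : ℕ) : ℝ) := by
      rw [← Real.log_rpow hr0]
      exact Real.log_le_log (by positivity) h5
    have l2 : Real.log ((t.1 + t.2 : ℕ) : ℝ) ≤ K * Real.log (rad3 t) := by
      rw [← Real.log_rpow hr0]
      exact Real.log_le_log (by positivity) h6
    have q1 : Real.log (rad3 t) / Real.log ((t.1 + t.2 : ℕ) : ℝ) ≤ 1 / M := by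
      rw [div_le_div_iff₀ hlc hM]
      linarith
    have q2 : 1 / K ≤ Real.log (rad3 t) / Real.log ((t.1 + t.2 : ℕ) : ℝ) := by
      rw [div_le_div_iff₀ hK hlc]
      linarith
    set x := Real.log (rad3 t) / Real.log ((t.1 + t.2 : ℕ) : ℝ) with hx
    have hf1 : ((idx t : ℕ) : ℝ) ≤ (x - 1 / K) / δ :=
      Nat.floor_le (div_nonneg (by linarith) hδ0.le)
    have hf2 : (x - 1 / K) / δ < ((idx t : ℕ) : ℝ) + 1 := Nat.lt_floor_add_one _
    rw [le_div_iff₀ hδ0] at hf1
    rw [div_lt_iff₀ hδ0] at hf2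
    refine ⟨c1, r1, ?_, ?_, q1⟩
    · rw [hlam]
      simp only
      linarith
    · rw [hlam]
      simp only
      push_cast
      linarith
  have hmaps : ∀ t ∈ s, idx t ∈ range I := by
    intro t ht
    obtain ⟨h1, h2, h3, h4, h5⟩ := hprop t ht
    rw [mem_range, hI, Nat.lt_succ_iff]
    refine Nat.floor_le_floor ?_
    have : (0 : ℝ) < 1 / K := by positivity
    gcongr
    linarith
  rw [card_eq_sum_card_fiberwise hmaps]
  push_cast
  have hterm : ∀ i ∈ range I, (((s.filter fun t => idx t = i).card : ℕ) : ℝ) ≤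
      |C i| * (X : ℝ) ^ (max (1 - M) (4 / 7) + e) := by
    intro i _
    rcases (s.filter fun t => idx t = i).eq_empty_or_nonempty with hem | ⟨t₀, ht₀⟩
    · rw [hem, card_empty, Nat.cast_zero]
      positivity
    rw [mem_filter] at ht₀
    have hi1 : lam i ≤ 1 / M := by
      obtain ⟨-, -, h3, -, h5⟩ := hprop t₀ ht₀.1
      rw [ht₀.2] at h3
      exact h3.trans h5
    have hli := hlampos i
    set Y : ℕ := ⌊(X : ℝ) ^ (1 / lam i)⌋₊ with hY
    have hY1 : 1 ≤ Y := by
      refine Nat.le_floor ?_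
      push_cast
      exact Real.one_le_rpow hX1 (by positivity)
    have hYle : (Y : ℝ) ≤ (X : ℝ) ^ (1 / lam i) := Nat.floor_le (by positivity)
    have hsub : ((s.filter fun t => idx t = i).card : ℕ) ≤
        (Pool.Agent.W221.ABC7.ExcB 1 (lam (i + 1)) Y).ncard := by
      rw [← Set.ncard_coe_finset]
      refine Set.ncard_le_ncard_of_injOn (fun t : ℕ × ℕ => (t.1, t.2, t.1 + t.2)) ?_ ?_
        (Pool.Agent.W221.ABC7.excB_finite _ _ _)
      · intro t ht
        rw [mem_coe, mem_filter] at ht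
        obtain ⟨h1, h2, h3, h4, h5⟩ := hprop t ht.1
        obtain ⟨⟨g1, g2, g3⟩, g4, g5, g6⟩ := hs t ht.1
        rw [ht.2] at h3 h4
        have hlc : 0 < Real.log ((t.1 + t.2 : ℕ) : ℝ) := Real.log_pos h1
        have hc0 : (0 : ℝ) < ((t.1 + t.2 : ℕ) : ℝ) := by linarith
        have hr0 : (0 : ℝ) < (rad3 t : ℝ) := by linarith
        refine ⟨g1, by simp only; omega, g3, rfl, ?_, ?_⟩
        · simp only
          refine Nat.le_floor ?_
          rw [le_div_iff₀ hlc] at h3
          have e1 : Real.log ((t.1 + t.2 : ℕ) : ℝ) ≤ 1 / lam i * Real.log (rad3 t) := by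
            rw [one_div_mul_eq_div, le_div_iff₀ hli]
            linarith
          calc ((t.1 + t.2 : ℕ) : ℝ) = Real.exp (Real.log ((t.1 + t.2 : ℕ) : ℝ)) :=
                (Real.exp_log hc0).symm
            _ ≤ Real.exp (1 / lam i * Real.log (rad3 t)) := Real.exp_le_exp.2 e1
            _ = (rad3 t : ℝ) ^ (1 / lam i) := by
                rw [Real.rpow_def_of_pos hr0, mul_comm]
            _ ≤ (X : ℝ) ^ (1 / lam i) := by
                refine Real.rpow_le_rpow hr0.le ?_ (by positivity)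
                exact_mod_cast g4
        · simp only
          rw [div_lt_iff₀ hlc] at h4
          rw [one_mul]
          change (rad3 t : ℝ) ≤ _
          calc (rad3 t : ℝ) = Real.exp (Real.log (rad3 t)) := (Real.exp_log hr0).symm
            _ ≤ Real.exp (lam (i + 1) * Real.log ((t.1 + t.2 : ℕ) : ℝ)) :=
                Real.exp_le_exp.2 h4.le
            _ = _ := by
                rw [Real.rpow_def_of_pos hc0, mul_comm]
      · intro t _ t' _ h
        simp only [Prod.mk.injEq] at h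
        exact Prod.ext h.1 h.2.1
    have hFx := Fx_le (lam (i + 1)) (hlampos _).le
    have hl1 : lam (i + 1) = lam i + δ := by
      rw [hlam]
      simp only
      push_cast
      ring
    have hexp : 1 / lam i * (Pool.Agent.W221.ABC7.Fx (lam (i + 1)) + δ) ≤
        max (1 - M) (4 / 7) + e := by
      rw [one_div_mul_eq_div, div_le_iff₀ hli]
      have h1 : 1 / K ≤ lam i := hlam0 i
      have h2 : 2 * δ ≤ e * lam i := by
        have : 2 * δ = e * (1 / K) := by
          rw [hδ]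
          field_simp
        rw [this]
        gcongr
      have h3 : lam i * M ≤ 1 := by
        rw [le_div_iff₀ hM] at hi1
        exact hi1
      have h4 : (max (1 - M) (4 / 7)) * lam i ≥ max (lam i - 1) (4 * lam i / 7) := by
        refine max_le ?_ ?_
        · calc lam i - 1 ≤ (1 - M) * lam i := by nlinarith
            _ ≤ _ := by
              gcongr
              exact le_max_left _ _
        · calc 4 * lam i / 7 = 4 / 7 * lam i := by ring
            _ ≤ _ := by
              gcongr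
              exact le_max_right _ _
      have h5 : max (lam (i + 1) - 1) (4 * lam (i + 1) / 7) ≤
          max (lam i - 1) (4 * lam i / 7) + δ := by
        rw [hl1]
        refine max_le ?_ ?_
        · have := le_max_left (lam i - 1) (4 * lam i / 7)
          linarith
        · have := le_max_right (lam i - 1) (4 * lam i / 7)
          linarith
      nlinarith
    have hFx0 : 0 ≤ Pool.Agent.W221.ABC7.Fx (lam (i + 1)) + δ :=
      add_nonneg (Pool.Agent.W221.ABC7.Fx_pos _ (hlampos _)).le hδ0.le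
    calc (((s.filter fun t => idx t = i).card : ℕ) : ℝ) ≤
          ((Pool.Agent.W221.ABC7.ExcB 1 (lam (i + 1)) Y).ncard : ℝ) := by exact_mod_cast hsub
      _ ≤ C i * (Y : ℝ) ^ (Pool.Agent.W221.ABC7.Fx (lam (i + 1)) + δ) := hC i Y hY1
      _ ≤ |C i| * (Y : ℝ) ^ (Pool.Agent.W221.ABC7.Fx (lam (i + 1)) + δ) := by
          gcongr
          exact le_abs_self _
      _ ≤ |C i| * ((X : ℝ) ^ (1 / lam i)) ^ (Pool.Agent.W221.ABC7.Fx (lam (i + 1)) + δ) := by
          gcongr
      _ = |C i| * (X : ℝ) ^ (1 / lam i * (Pool.Agent.W221.ABC7.Fx (lam (i + 1)) + δ)) := by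
          rw [← Real.rpow_mul hX0.le]
      _ ≤ |C i| * (X : ℝ) ^ (max (1 - M) (4 / 7) + e) := by
          gcongr
  calc ∑ i ∈ range I, (((s.filter fun t => idx t = i).card : ℕ) : ℝ) ≤
        ∑ i ∈ range I, |C i| * (X : ℝ) ^ (max (1 - M) (4 / 7) + e) := sum_le_sum hterm
    _ = (∑ i ∈ range I, |C i|) * (X : ℝ) ^ (max (1 - M) (4 / 7) + e) := by rw [sum_mul]
    _ ≤ _ := by
        refine mul_le_mul_of_nonneg_right ?_ (by positivity)
        linarith

end Pool.Agent.T2H21.RS
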