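import Pool.Agent.T2H21.RS.Ev
import Pool.Agent.T2H21.RS.Asy

/-! Almost surely infinitely many triples are supported on the random set; the first moment. -/

set_option autoImplicit false

namespace Pool.Agent.T2H21.RS

open MeasureTheory ProbabilityTheory Finset Filter

/-- the abc triples `(a, b, a + b)`, `a ≤ b`, written `(a, b)` -/
def IsT (t : ℕ × ℕ) : Prop := 0 < t.1 ∧ t.1 ≤ t.2 ∧ Nat.Coprime t.1 t.2

/-- the radical of `abc` -/
def rad3 (t : ℕ × ℕ) : ℕ := ∏ p ∈ (t.1 * t.2 * (t.1 + t.2)).primeFactors, p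

/-- the odd primes of `abc` are selected -/
def Supp {Ω : Type*} (E : ℕ → Set Ω) (ω : Ω) (t : ℕ × ℕ) : Prop :=
  ∀ p : ℕ, p.Prime → p ∣ t.1 * t.2 * (t.1 + t.2) → p = 2 ∨ ω ∈ E p

theorem mm_odd {q P : ℕ} (hP40 : 40 ≤ P) (hPq : ∀ p, p.Prime → p ≤ P → p ∣ q) (t : ℕ × ℕ) :
    ¬ 2 ∣ mm q t := by
  intro h
  have := prime_gt hPq Nat.prime_two h
  omega

theorem rad3_fam {q P : ℕ} (hP40 : 40 ≤ P) (hPq : ∀ p, p.Prime → p ≤ P → p ∣ q)
    {t : ℕ × ℕ} (hsq : Squarefree (mm q t)) : rad3 (aa q t, bb q t) = 2 * mm q t := by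
  unfold rad3
  have e : aa q t * bb q t * (aa q t + bb q t) = 2 * mm q t := by
    rw [add_eq]
    unfold mm
    ring
  simp only
  rw [e]
  refine Nat.prod_primeFactors_of_squarefree ?_
  rw [Nat.squarefree_mul ((Nat.Prime.coprime_iff_not_dvd Nat.prime_two).2 (mm_odd hP40 hPq t))]
  exact ⟨Nat.prime_two.squarefree, hsq⟩

variable {Ω : Type*} [MeasurableSpace Ω]

/-- **The second moment.** -/
theorem infinite_ae (P : Measure Ω) [IsProbabilityMeasure P] {E : ℕ → Set Ω}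
    (hE : ∀ p, MeasurableSet (E p)) (hind : iIndepSet E P)
    {γ : ℝ} (hγ : 1 / 2 < γ) (hγ1 : γ < 2 / 3)
    (hP : ∀ p : ℕ, p.Prime → P (E p) = ENNReal.ofReal ((p : ℝ) ^ (-γ)))
    {ρ : ℝ} (hρ : ρ < 1 - γ) :
    ∀ᵐ ω ∂P, {t : ℕ × ℕ | IsT t ∧ Supp E ω t ∧
      (rad3 t : ℝ) ^ ρ ≤ ((t.1 + t.2 : ℕ) : ℝ)}.Infinite := by
  -- a larger exponent
  set ρ' : ℝ := max ρ ((1 / 3 + (1 - γ)) / 2) with hρ'
  have h1ρ : ρ' < 1 - γ := max_lt hρ (by linarith)
  have h2ρ : 1 / 3 < ρ' := lt_of_lt_of_le (by linarith) (le_max_right _ _)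
  have hρ'0 : 0 < ρ' := by linarith
  -- the exponent kappa
  have hk1 : 1 / (1 - γ) < 1 / ρ' := one_div_lt_one_div_of_lt hρ'0 h1ρ
  set κ : ℝ := (1 / (1 - γ) + 1 / ρ') / 2 - 2 with hκ
  have hγ2 : 2 < 1 / (1 - γ) := by
    rw [lt_div_iff₀ (by linarith)]
    linarith
  have hρ3 : 1 / ρ' < 3 := by
    rw [div_lt_iff₀ hρ'0]
    linarith
  have hκ0 : 0 < κ := by
    rw [hκ]
    linarith
  have hκ1 : κ < 1 := by
    rw [hκ]
    linarith
  have hκγ : γ * (κ + 2) < κ + 1 := by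
    have h3 : 1 / (1 - γ) < κ + 2 := by
      rw [hκ]
      linarith
    rw [div_lt_iff₀ (by linarith)] at h3
    nlinarith
  have hκρ : ρ' * (κ + 2) < 1 := by
    have h3 : κ + 2 < 1 / ρ' := by
      rw [hκ]
      linarith
    rw [lt_div_iff₀ hρ'0] at h3
    linarith
  set Bad : Set Ω := {ω | ¬ {t : ℕ × ℕ | IsT t ∧ Supp E ω t ∧
      (rad3 t : ℝ) ^ ρ ≤ ((t.1 + t.2 : ℕ) : ℝ)}.Infinite} with hBad
  have hmain : ∀ η : ℝ, 0 < η → P Bad ≤ ENNReal.ofReal η := by
    intro η hη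
    obtain ⟨q, P₀, hq, hP40, hPq, hev⟩ := params (by linarith) (by linarith) hκ0 hκ1 hκγ hη
    have hq' : (0 : ℝ) < q := by exact_mod_cast hq
    have hq1 : (1 : ℝ) ≤ q := by exact_mod_cast hq
    -- the analytic condition
    have hev2 : ∀ᶠ β : ℕ in atTop, (128 * (q : ℝ) ^ 3 * (β : ℝ) ^ (κ + 2)) ^ ρ' ≤ β := by
      have h1 : Tendsto (fun β : ℕ => (β : ℝ) ^ (1 - ρ' * (κ + 2))) atTop atTop :=
        (tendsto_rpow_atTop (by linarith)).comp tendsto_natCast_atTop_atTop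
      filter_upwards [h1.eventually_ge_atTop ((128 * (q : ℝ) ^ 3) ^ ρ'), eventually_gt_atTop 0]
        with β h2 h3
      have hβ : (0 : ℝ) < β := by exact_mod_cast h3
      calc (128 * (q : ℝ) ^ 3 * (β : ℝ) ^ (κ + 2)) ^ ρ' =
            (128 * (q : ℝ) ^ 3) ^ ρ' * (β : ℝ) ^ (ρ' * (κ + 2)) := by
            rw [Real.mul_rpow (by positivity) (by positivity), ← Real.rpow_mul hβ.le,
              mul_comm (κ + 2)]
        _ ≤ (β : ℝ) ^ (1 - ρ' * (κ + 2)) * (β : ℝ) ^ (ρ' * (κ + 2)) := by gcongr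
        _ = β := by
            rw [← Real.rpow_add hβ]
            simp
    obtain ⟨β₀, hβ₀⟩ := eventually_atTop.1 (hev.and hev2)
    set none : ℕ → Set Ω := fun β =>
      {ω | ∀ t ∈ fam q ⌊(β : ℝ) ^ κ⌋₊ β, ω ∉ Sel E (mm q t).primeFactors} with hnone
    have hprob : ∀ β, β₀ ≤ β → P (none β) ≤ ENNReal.ofReal η := by
      intro β hβ
      obtain ⟨⟨h1, h2, h3⟩, -⟩ := hβ₀ β hβ
      have h4 := prob_none P hE hind (by linarith) (by linarith) hP q ⌊(β : ℝ) ^ κ⌋₊ β P₀ hq hP40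
        hPq h1 (by omega)
      have h5 : P.real (none β) ≤ η := h4.trans h3
      rw [← ENNReal.ofReal_toReal (measure_ne_top P (none β))]
      exact ENNReal.ofReal_le_ofReal h5
    set G : ℕ → Set Ω := fun J => ⋂ β ≥ max J β₀, none β with hG
    have hGmono : Monotone G := by
      intro J J' hJ ω hω
      simp only [hG, Set.mem_iInter] at hω ⊢
      intro β hβ
      exact hω β (le_trans (max_le_max hJ le_rfl) hβ)
    have hGle : ∀ J, P (G J) ≤ ENNReal.ofReal η := by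
      intro J
      refine (measure_mono ?_).trans (hprob (max J β₀) (le_max_right _ _))
      intro ω hω
      simp only [hG, Set.mem_iInter] at hω
      exact hω (max J β₀) (le_refl _)
    have hcover : Bad ⊆ ⋃ J, G J := by
      intro ω hω
      rw [hBad, Set.mem_ofPred_eq, Set.not_infinite] at hω
      obtain ⟨J, hJ⟩ := (hω.image fun t => t.2).bddAbove
      refine Set.mem_iUnion.2 ⟨J + 1, ?_⟩
      simp only [hG, Set.mem_iInter]
      intro β hβ
      have hβJ : J + 1 ≤ β := le_trans (le_max_left _ _) hβ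
      have hββ : β₀ ≤ β := le_trans (le_max_right _ _) hβ
      obtain ⟨⟨g1, g2, -⟩, g3⟩ := hβ₀ β hββ
      rw [hnone, Set.mem_ofPred_eq]
      intro t ht hsel
      have hbox : t ∈ box ⌊(β : ℝ) ^ κ⌋₊ β ∧ Squarefree (mm q t) := by
        unfold fam at ht
        exact mem_filter.1 ht
      obtain ⟨b1, b2, b3, b4, b5, b6⟩ := box_bounds hq hbox.1
      have hβpos : 0 < β := by omega
      have hbb : β < bb q t := by
        have : 1 * β ≤ q * β := Nat.mul_le_mul_right _ hq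
        have : 2 * (q * β) ≤ bb q t := by
          rw [← mul_assoc]
          exact b3
        omega
      have hmemT : (aa q t, bb q t) ∈ {t : ℕ × ℕ | IsT t ∧ Supp E ω t ∧
          (rad3 t : ℝ) ^ ρ ≤ ((t.1 + t.2 : ℕ) : ℝ)} := by
        refine ⟨⟨by unfold aa; omega, ?_, (fam_cop hbox.2).1⟩, ?_, ?_⟩
        · simp only
          refine b2.trans (le_trans ?_ b3)
          calc 4 * q * ⌊(β : ℝ) ^ κ⌋₊ = 2 * q * (2 * ⌊(β : ℝ) ^ κ⌋₊) := by ring
            _ ≤ 2 * q * β := by gcongr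
        · intro p hp hpd
          by_cases h2 : p = 2
          · exact Or.inl h2
          · right
            simp only at hpd
            have e : aa q t * bb q t * (aa q t + bb q t) = 2 * mm q t := by
              rw [add_eq]
              unfold mm
              ring
            rw [e] at hpd
            have h3 : p ∣ mm q t := by
              rcases (Nat.Prime.dvd_mul hp).1 hpd with h | h
              · exact absurd ((Nat.prime_dvd_prime_iff_eq hp Nat.prime_two).1 h) h2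
              · exact h
            have h4 : p ∈ (mm q t).primeFactors :=
              Nat.mem_primeFactors.2 ⟨hp, h3, (mm_pos q t).ne'⟩
            unfold Sel at hsel
            exact Set.mem_iInter₂.1 hsel p h4
        · have hr := rad3_fam hP40 hPq hbox.2
          simp only
          rw [hr]
          have hβr : (0 : ℝ) < β := by exact_mod_cast hβpos
          have hm1 : (1 : ℝ) ≤ ((2 * mm q t : ℕ) : ℝ) := by
            exact_mod_cast (by have := mm_pos q t; omega : 1 ≤ 2 * mm q t)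
          have hmle : ((2 * mm q t : ℕ) : ℝ) ≤ 128 * (q : ℝ) ^ 3 * (β : ℝ) ^ (κ + 2) := by
            have h5 := mm_le hq (by omega : ⌊(β : ℝ) ^ κ⌋₊ ≤ β) hbox.1
            have h6 : ((mm q t : ℕ) : ℝ) ≤ 64 * (q : ℝ) ^ 3 * (⌊(β : ℝ) ^ κ⌋₊ : ℕ) * (β : ℝ) ^ 2 := by
              exact_mod_cast h5
            have h7 : ((⌊(β : ℝ) ^ κ⌋₊ : ℕ) : ℝ) ≤ (β : ℝ) ^ κ := Nat.floor_le (by positivity)
            push_cast
            calc 2 * ((mm q t : ℕ) : ℝ) ≤
                  2 * (64 * (q : ℝ) ^ 3 * (β : ℝ) ^ κ * (β : ℝ) ^ 2) := by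
                  refine mul_le_mul_of_nonneg_left (h6.trans ?_) (by norm_num)
                  gcongr
              _ = _ := by
                  rw [Real.rpow_add hβr, Real.rpow_two]
                  ring
          calc ((2 * mm q t : ℕ) : ℝ) ^ ρ ≤ ((2 * mm q t : ℕ) : ℝ) ^ ρ' :=
                Real.rpow_le_rpow_of_exponent_le hm1 (le_max_left _ _)
            _ ≤ (128 * (q : ℝ) ^ 3 * (β : ℝ) ^ (κ + 2)) ^ ρ' := by gcongr
            _ ≤ β := g3
            _ ≤ ((aa q t + bb q t : ℕ) : ℝ) := by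
                exact_mod_cast (by omega : β ≤ aa q t + bb q t)
      have := hJ (Set.mem_image_of_mem _ hmemT)
      simp only at this
      omega
    calc P Bad ≤ P (⋃ J, G J) := measure_mono hcover
      _ = ⨆ J, P (G J) := hGmono.measure_iUnion
      _ ≤ ENNReal.ofReal η := iSup_le hGle
  have hzero : P Bad = 0 := by
    refine le_antisymm ?_ bot_le
    refine ENNReal.le_of_forall_pos_le_add ?_
    intro ε hε _
    rw [zero_add]
    have := hmain ε (by exact_mod_cast hε)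
    rwa [ENNReal.ofReal_coe_nnreal] at this
  exact measure_eq_zero_iff_ae_notMem.1 hzero |>.mono fun ω hω => by
    rw [hBad, Set.mem_ofPred_eq, not_not] at hω
    exact hω

/-- **The first moment.** -/
theorem finite_ae (P : Measure Ω) [IsProbabilityMeasure P] {E : ℕ → Set Ω}
    (hind : iIndepSet E P) {γ : ℝ}
    (hP : ∀ p : ℕ, p.Prime → P (E p) = ENNReal.ofReal ((p : ℝ) ^ (-γ)))
    (T : Set (ℕ × ℕ)) (hT : ∀ t ∈ T, IsT t) {C θ : ℝ} (hθ : 0 ≤ θ) (hθγ : θ < γ)
    (h : ∀ X : ℕ, 1 ≤ X → ∀ s : Finset (ℕ × ℕ), (∀ t ∈ s, t ∈ T ∧ rad3 t ≤ X) →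
      (s.card : ℝ) ≤ C * (X : ℝ) ^ θ) :
    ∀ᵐ ω ∂P, {t : ℕ × ℕ | t ∈ T ∧ Supp E ω t}.Finite := by
  classical
  have hγ : 0 < γ := lt_of_le_of_lt hθ hθγ
  have hradpos : ∀ t, 1 ≤ rad3 t := fun t =>
    Finset.prod_pos fun p hp => (Nat.prime_of_mem_primeFactors hp).pos
  have hsum := summable_rpow (fun t : T => rad3 t.1) (fun t => hradpos t.1) hθ hθγ (C := C) (by
    intro X hX s hs
    have h1 := h X hX (s.map (Function.Embedding.subtype _)) (by
      intro t ht
      rw [Finset.mem_map] at ht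
      obtain ⟨u, hu, rfl⟩ := ht
      exact ⟨u.2, hs u hu⟩)
    rwa [Finset.card_map] at h1)
  set S : T → Set Ω := fun t => {ω | Supp E ω t.1} with hS
  have hle : ∀ t : T, P (S t) ≤ ENNReal.ofReal ((2 : ℝ) ^ γ * (rad3 t.1 : ℝ) ^ (-γ)) := by
    rintro ⟨t, ht⟩
    obtain ⟨h1, h2, h3⟩ := hT t ht
    set m := t.1 * t.2 * (t.1 + t.2) with hm
    have hm0 : m ≠ 0 := by
      rw [hm]
      exact (Nat.mul_pos (Nat.mul_pos h1 (by omega)) (by omega)).ne'
    have h2m : 2 ∣ m := by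
      rw [hm]
      rcases Nat.even_or_odd t.1 with he | ho
      · exact Dvd.dvd.mul_right (Dvd.dvd.mul_right he.two_dvd _) _
      · rcases Nat.even_or_odd t.2 with he | ho'
        · exact Dvd.dvd.mul_right (Dvd.dvd.mul_left he.two_dvd _) _
        · exact Dvd.dvd.mul_left (ho.add_odd ho').two_dvd _
    have h2mem : 2 ∈ m.primeFactors := Nat.mem_primeFactors.2 ⟨Nat.prime_two, h2m, hm0⟩
    have e1 : S ⟨t, ht⟩ = Sel E (m.primeFactors.erase 2) := by
      ext ω
      simp only [hS, Set.mem_ofPred_eq, Supp, Sel, Set.mem_iInter, Finset.mem_erase]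
      constructor
      · rintro hω p ⟨hp2, hp⟩
        rcases hω p (Nat.prime_of_mem_primeFactors hp) (Nat.dvd_of_mem_primeFactors hp) with h | h
        · exact absurd h hp2
        · exact h
      · intro hω p hp hpd
        by_cases hp2 : p = 2
        · exact Or.inl hp2
        · exact Or.inr (hω p ⟨hp2, Nat.mem_primeFactors.2 ⟨hp, hpd, hm0⟩⟩)
    have e2 : 2 * ∏ p ∈ m.primeFactors.erase 2, p = rad3 t := by
      exact Finset.mul_prod_erase m.primeFactors (fun p => p) h2mem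
    have hpos : 0 < ∏ p ∈ m.primeFactors.erase 2, p := Finset.prod_pos fun p hp =>
      (Nat.prime_of_mem_primeFactors (Finset.mem_of_mem_erase hp)).pos
    have e3 : P.real (S ⟨t, ht⟩) = (2 : ℝ) ^ γ * (rad3 t : ℝ) ^ (-γ) := by
      rw [e1, sel_prob P hind hP _ fun p hp =>
        Nat.prime_of_mem_primeFactors (Finset.mem_of_mem_erase hp), ← e2]
      have hpos' : (0 : ℝ) < ((∏ p ∈ m.primeFactors.erase 2, p : ℕ) : ℝ) := by exact_mod_cast hpos
      rw [Nat.cast_mul, Real.mul_rpow (by positivity) hpos'.le, ← mul_assoc, Nat.cast_ofNat,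
        ← Real.rpow_add (by norm_num)]
      simp
    rw [← e3, measureReal_def, ENNReal.ofReal_toReal (measure_ne_top P _)]
  have hfin : ∑' t : T, P (S t) ≠ ⊤ := by
    refine ne_top_of_le_ne_top ?_ (ENNReal.tsum_le_tsum hle)
    exact (hsum.mul_left ((2 : ℝ) ^ γ)).tsum_ofReal_ne_top
  filter_upwards [ae_finite_setOfPred_mem hfin] with ω hω
  have : {t : ℕ × ℕ | t ∈ T ∧ Supp E ω t} = Subtype.val '' {t : T | ω ∈ S t} := by
    ext t
    constructor
    · rintro ⟨h1, h2⟩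
      exact ⟨⟨t, h1⟩, h2, rfl⟩
    · rintro ⟨u, hu, rfl⟩
      exact ⟨u.2, hu⟩
  rw [this]
  exact hω.image _

end Pool.Agent.T2H21.RS
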