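import Pool.Agent.T2H21.RS.Cnt3

/-! The sum over the pairs of members of the family with a common prime. -/

set_option autoImplicit false

namespace Pool.Agent.T2H21.RS

open Finset

theorem mm_le {q α β : ℕ} (hq : 0 < q) (hαβ : α ≤ β) {t : ℕ × ℕ} (ht : t ∈ box α β) :
    mm q t ≤ 64 * q ^ 3 * α * β ^ 2 := by
  obtain ⟨h1, h2, h3, h4, h5, h6⟩ := box_bounds hq ht
  have h7 : hh q t ≤ 4 * q * β := h6.trans (by
    calc 2 * q * (α + β) ≤ 2 * q * (β + β) := by gcongr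
      _ = 4 * q * β := by ring)
  calc mm q t = aa q t * bb q t * hh q t := rfl
    _ ≤ (4 * q * α) * (4 * q * β) * (4 * q * β) := by gcongr
    _ = _ := by ring

theorem le_mm {q α β : ℕ} (hq : 0 < q) {t : ℕ × ℕ} (ht : t ∈ box α β) :
    4 * q ^ 3 * α * β ^ 2 ≤ mm q t := by
  obtain ⟨h1, h2, h3, h4, h5, h6⟩ := box_bounds hq ht
  calc 4 * q ^ 3 * α * β ^ 2 = (2 * q * α) * (2 * q * β) * (q * β) := by ring
    _ ≤ aa q t * bb q t * hh q t := by gcongr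
    _ = mm q t := rfl

theorem mm_pos (q : ℕ) (t : ℕ × ℕ) : 0 < mm q t := by
  unfold mm aa bb hh
  positivity

theorem prime_gt {q P p : ℕ} {t : ℕ × ℕ} (hP : ∀ p, p.Prime → p ≤ P → p ∣ q) (hp : p.Prime)
    (h : p ∣ mm q t) : P < p := by
  by_contra hle
  have h1 := hP p hp (by omega)
  have h3 : p ∣ 2 * q := Dvd.dvd.mul_left h1 2
  unfold mm at h
  rcases (Nat.Prime.dvd_mul hp).1 h with h | h
  · rcases (Nat.Prime.dvd_mul hp).1 h with h | h
    · have := Nat.eq_one_of_dvd_coprimes (cop_q (q := 2 * q) h) dvd_rfl h3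
      exact hp.one_lt.ne' this
    · have := Nat.eq_one_of_dvd_coprimes (cop_q (q := 2 * q) h) dvd_rfl h3
      exact hp.one_lt.ne' this
  · have := Nat.eq_one_of_dvd_coprimes (cop_q (q := q) h) dvd_rfl h1
    exact hp.one_lt.ne' this

/-- the sum over the pairs with a common prime -/
noncomputable def WW (q α β : ℕ) (γ : ℝ) : ℝ :=
  ∑ t ∈ fam q α β, ∑ t' ∈ fam q α β,
    if 1 < Nat.gcd (mm q t) (mm q t') then ((Nat.gcd (mm q t) (mm q t') : ℕ) : ℝ) ^ γ else 0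

theorem WW_le_sum (q α β P : ℕ) (γ : ℝ) (hq : 0 < q) (hαβ : α ≤ β)
    (hP : ∀ p, p.Prime → p ≤ P → p ∣ q) :
    WW q α β γ ≤ ∑ d ∈ Ioc P (64 * q ^ 3 * α * β ^ 2),
      (d : ℝ) ^ γ * ((famd q α β d).card : ℝ) ^ 2 := by
  classical
  have e : ∀ d : ℕ, (d : ℝ) ^ γ * ((famd q α β d).card : ℝ) ^ 2 =
      ∑ t ∈ fam q α β, ∑ t' ∈ fam q α β,
        if d ∣ mm q t ∧ d ∣ mm q t' then (d : ℝ) ^ γ else 0 := by
    intro d
    have h1 : ((famd q α β d).card : ℝ) = ∑ t ∈ fam q α β, if d ∣ mm q t then (1 : ℝ) else 0 := by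
      unfold famd
      rw [card_filter]
      push_cast
      rfl
    rw [h1, pow_two, sum_mul_sum, mul_sum]
    refine sum_congr rfl fun t _ => ?_
    rw [mul_sum]
    refine sum_congr rfl fun t' _ => ?_
    by_cases h2 : d ∣ mm q t <;> by_cases h3 : d ∣ mm q t' <;> simp [h2, h3]
  simp_rw [e]
  rw [sum_comm]
  unfold WW
  refine sum_le_sum fun t ht => ?_
  rw [sum_comm]
  refine sum_le_sum fun t' ht' => ?_
  have hnn : ∀ d ∈ Ioc P (64 * q ^ 3 * α * β ^ 2),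
      (0 : ℝ) ≤ if d ∣ mm q t ∧ d ∣ mm q t' then (d : ℝ) ^ γ else 0 := by
    intro d _
    split_ifs
    · positivity
    · exact le_rfl
  split_ifs with hg
  · have hmem : Nat.gcd (mm q t) (mm q t') ∈ Ioc P (64 * q ^ 3 * α * β ^ 2) := by
      rw [mem_Ioc]
      constructor
      · obtain ⟨p, hp, hpd⟩ := Nat.exists_prime_and_dvd hg.ne'
        have h1 := prime_gt hP hp (hpd.trans (Nat.gcd_dvd_left _ _))
        exact lt_of_lt_of_le h1 (Nat.le_of_dvd (by omega) hpd)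
      · have h2 : t ∈ box α β := by
          unfold fam at ht
          exact (mem_filter.1 ht).1
        exact (Nat.gcd_le_left _ (mm_pos q t)).trans (mm_le hq hαβ h2)
    refine le_trans (le_of_eq ?_) (single_le_sum hnn hmem)
    rw [if_pos ⟨Nat.gcd_dvd_left _ _, Nat.gcd_dvd_right _ _⟩]
  · exact sum_nonneg hnn

theorem sum_famd_le (q α β : ℕ) (s : Finset ℕ) :
    ∑ d ∈ s, ((famd q α β d).card : ℝ) ≤ ∑ t ∈ fam q α β, ((mm q t).divisors.card : ℝ) := by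
  classical
  have h1 : ∀ d : ℕ, ((famd q α β d).card : ℝ) =
      ∑ t ∈ fam q α β, if d ∣ mm q t then (1 : ℝ) else 0 := by
    intro d
    unfold famd
    rw [card_filter]
    push_cast
    rfl
  simp_rw [h1]
  rw [sum_comm]
  refine sum_le_sum fun t _ => ?_
  rw [← Nat.cast_one, ← Nat.cast_zero]
  have : ∑ d ∈ s, (if d ∣ mm q t then ((1 : ℕ) : ℝ) else ((0 : ℕ) : ℝ)) =
      ((s.filter fun d => d ∣ mm q t).card : ℝ) := by
    rw [card_filter]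
    push_cast
    rfl
  rw [this]
  have hsub : (s.filter fun d => d ∣ mm q t) ⊆ (mm q t).divisors := by
    intro d hd
    exact Nat.mem_divisors.2 ⟨(mem_filter.1 hd).2, (mm_pos q t).ne'⟩
  exact_mod_cast card_le_card hsub

/-- **The bound for the sum over the pairs.** -/
theorem WW_le (q α β P : ℕ) (γ ε K : ℝ) (hγ : 0 < γ) (hε : 0 < ε) (hγε : γ + 2 * ε ≤ 1)
    (hK1 : 1 ≤ K)
    (hK : ∀ d : ℕ, 1 ≤ d → (d.divisors.card : ℝ) ^ 4 ≤ K * (d : ℝ) ^ ε)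
    (hq : 0 < q) (hα : 0 < α) (hαβ : α ≤ β) (hP : ∀ p, p.Prime → p ≤ P → p ∣ q) :
    WW q α β γ ≤ ((α : ℝ) * β) ^ 2 * (16 * K * ∑ d ∈ Ioc P α, (d : ℝ) ^ (-(1 + ε)) +
        1024 * (q : ℝ) ^ 4 * K *
          ∑ d ∈ Ioc α (64 * q ^ 3 * α * β ^ 2), (d : ℝ) ^ (-(1 + ε))) +
      (α : ℝ) * β * (((64 * q ^ 3 * α * β ^ 2 : ℕ) : ℝ) ^ (γ + 2 * ε) *
        (64 * (q : ℝ) ^ 2 * K *
          (∑ d ∈ Ioc α (64 * q ^ 3 * α * β ^ 2), (d : ℝ) ^ (-(1 + ε))) + 2 * K ^ 2)) := by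
  classical
  have hβ : 0 < β := by omega
  have hα' : (0 : ℝ) < α := by exact_mod_cast hα
  have hβ' : (0 : ℝ) < β := by exact_mod_cast hβ
  have hq' : (0 : ℝ) < q := by exact_mod_cast hq
  set N : ℕ := 64 * q ^ 3 * α * β ^ 2 with hN
  have hN1 : 1 ≤ N := Nat.succ_le_of_lt (by rw [hN]; positivity)
  have hN1' : (1 : ℝ) ≤ N := by exact_mod_cast hN1
  refine (WW_le_sum q α β P γ hq hαβ hP).trans ?_
  set f : ℕ → ℝ := fun d => (d : ℝ) ^ γ * ((famd q α β d).card : ℝ) ^ 2 with hf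
  have hf0 : ∀ d, 0 ≤ f d := fun d => by
    rw [hf]
    positivity
  have hsplit : ∑ d ∈ Ioc P N, f d ≤ (∑ d ∈ Ioc P α, f d) + ∑ d ∈ Ioc α N, f d := by
    have hsub : Ioc P N ⊆ Ioc P α ∪ Ioc α N := by
      intro d hd
      rw [mem_union, mem_Ioc, mem_Ioc]
      rw [mem_Ioc] at hd
      omega
    refine (sum_le_sum_of_subset_of_nonneg hsub fun d _ _ => hf0 d).trans ?_
    rw [← sum_union_inter]
    have : 0 ≤ ∑ d ∈ Ioc P α ∩ Ioc α N, f d := sum_nonneg fun d _ => hf0 d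
    linarith
  have hτ1 : ∀ d : ℕ, 1 ≤ d → (1 : ℝ) ≤ d.divisors.card := fun d hd => by
    have : 0 < d.divisors.card := card_pos.2 ⟨1, Nat.one_mem_divisors.2 (by omega)⟩
    exact_mod_cast this
  have hexp1 : ∀ d : ℕ, 1 ≤ d → (d : ℝ) ^ (γ - 2) * (d : ℝ) ^ ε ≤ (d : ℝ) ^ (-(1 + ε)) := by
    intro d hd
    have hd' : (0 : ℝ) < d := by exact_mod_cast hd
    rw [← Real.rpow_add hd']
    exact Real.rpow_le_rpow_of_exponent_le (by exact_mod_cast hd) (by linarith)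
  -- small d
  have hsm : ∑ d ∈ Ioc P α, f d ≤
      ((α : ℝ) * β) ^ 2 * (16 * K * ∑ d ∈ Ioc P α, (d : ℝ) ^ (-(1 + ε))) := by
    rw [mul_sum, mul_sum]
    refine sum_le_sum fun d hd => ?_
    rw [mem_Ioc] at hd
    have hd1 : 1 ≤ d := by omega
    have hd' : (0 : ℝ) < d := by exact_mod_cast hd1
    have h1 := famd_small q α β d hα hαβ (by omega) hd.2
    calc f d = (d : ℝ) ^ γ * ((famd q α β d).card : ℝ) ^ 2 := rfl
      _ ≤ (d : ℝ) ^ γ * ((d.divisors.card : ℝ) ^ 2 * (4 * α * β / d)) ^ 2 := by gcongr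
      _ = 16 * (α * β) ^ 2 * ((d.divisors.card : ℝ) ^ 4 * ((d : ℝ) ^ γ / (d : ℝ) ^ 2)) := by
          ring
      _ ≤ 16 * (α * β) ^ 2 * ((K * (d : ℝ) ^ ε) * ((d : ℝ) ^ γ / (d : ℝ) ^ 2)) := by
          gcongr
          exact hK d hd1
      _ = 16 * (α * β) ^ 2 * K * ((d : ℝ) ^ (γ - 2) * (d : ℝ) ^ ε) := by
          rw [Real.rpow_sub hd', Real.rpow_two]
          ring
      _ ≤ 16 * (α * β) ^ 2 * K * (d : ℝ) ^ (-(1 + ε)) := by
          gcongr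
          exact hexp1 d hd1
      _ = _ := by ring
  -- large d
  have hlg : ∑ d ∈ Ioc α N, f d ≤
      ((α : ℝ) * β) ^ 2 * (1024 * (q : ℝ) ^ 4 * K * ∑ d ∈ Ioc α N, (d : ℝ) ^ (-(1 + ε))) +
      (α : ℝ) * β * ((N : ℝ) ^ (γ + 2 * ε) *
        (64 * (q : ℝ) ^ 2 * K * (∑ d ∈ Ioc α N, (d : ℝ) ^ (-(1 + ε))) + 2 * K ^ 2)) := by
    have hterm : ∀ d ∈ Ioc α N, f d ≤
        ((α : ℝ) * β) ^ 2 * (1024 * (q : ℝ) ^ 4 * K) * (d : ℝ) ^ (-(1 + ε)) +
        (α : ℝ) * β * (N : ℝ) ^ (γ + 2 * ε) * (64 * (q : ℝ) ^ 2 * K) * (d : ℝ) ^ (-(1 + ε)) +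
        2 * K * (N : ℝ) ^ (γ + ε) * ((famd q α β d).card : ℝ) := by
      intro d hd
      rw [mem_Ioc] at hd
      have hd1 : 1 ≤ d := by omega
      have hd' : (0 : ℝ) < d := by exact_mod_cast hd1
      have hd1' : (1 : ℝ) ≤ d := by exact_mod_cast hd1
      have hdN : (d : ℝ) ≤ N := by exact_mod_cast hd.2
      have h1 := famd_large q α β d hq hα hβ (by omega)
      have hτ := hτ1 d hd1
      have hK4 := hK d hd1
      have hK2 : (d.divisors.card : ℝ) ^ 2 ≤ K * (d : ℝ) ^ ε :=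
        (pow_le_pow_right₀ hτ (by norm_num : 2 ≤ 4)).trans hK4
      set τ : ℝ := (d.divisors.card : ℝ) with hτdef
      set n : ℝ := ((famd q α β d).card : ℝ) with hn
      have hn0 : 0 ≤ n := Nat.cast_nonneg _
      set A : ℝ := 32 * (q : ℝ) ^ 2 * α * β with hA
      have hA0 : 0 ≤ A := by positivity
      have e1 : (d : ℝ) ^ (γ - 1 + ε) ≤ (N : ℝ) ^ (γ + 2 * ε) * (d : ℝ) ^ (-(1 + ε)) := by
        rw [show γ - 1 + ε = (γ + 2 * ε) + (-(1 + ε)) by ring, Real.rpow_add hd']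
        gcongr
      have e2 : (d : ℝ) ^ γ * (d : ℝ) ^ ε ≤ (N : ℝ) ^ (γ + ε) := by
        rw [← Real.rpow_add hd']
        gcongr
      have e3 : (d : ℝ) ^ γ / d * (d : ℝ) ^ ε = (d : ℝ) ^ (γ - 1 + ε) := by
        rw [Real.rpow_add hd', Real.rpow_sub hd', Real.rpow_one]
      have e4 : (d : ℝ) ^ γ / (d : ℝ) ^ 2 * (d : ℝ) ^ ε ≤ (d : ℝ) ^ (-(1 + ε)) := by
        have := hexp1 d hd1
        rwa [Real.rpow_sub hd', Real.rpow_two] at this
      have hdγ : (0 : ℝ) ≤ (d : ℝ) ^ γ := by positivity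
      calc f d = (d : ℝ) ^ γ * (n * n) := by
            simp only [hf]
            rw [hn, pow_two]
        _ ≤ (d : ℝ) ^ γ * (n * (τ ^ 2 * (A / d + 2))) := by gcongr
        _ = (d : ℝ) ^ γ / d * A * τ ^ 2 * n + 2 * τ ^ 2 * (d : ℝ) ^ γ * n := by
            field_simp
        _ ≤ (d : ℝ) ^ γ / d * A * τ ^ 2 * (τ ^ 2 * (A / d + 2)) +
              2 * (K * (d : ℝ) ^ ε) * (d : ℝ) ^ γ * n := by gcongr
        _ = A ^ 2 * τ ^ 4 * ((d : ℝ) ^ γ / (d : ℝ) ^ 2) + 2 * A * τ ^ 4 * ((d : ℝ) ^ γ / d) +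
              2 * K * ((d : ℝ) ^ γ * (d : ℝ) ^ ε) * n := by
            field_simp
        _ ≤ A ^ 2 * (K * (d : ℝ) ^ ε) * ((d : ℝ) ^ γ / (d : ℝ) ^ 2) +
              2 * A * (K * (d : ℝ) ^ ε) * ((d : ℝ) ^ γ / d) +
              2 * K * (N : ℝ) ^ (γ + ε) * n := by gcongr
        _ = A ^ 2 * K * ((d : ℝ) ^ γ / (d : ℝ) ^ 2 * (d : ℝ) ^ ε) +
              2 * A * K * ((d : ℝ) ^ γ / d * (d : ℝ) ^ ε) +
              2 * K * (N : ℝ) ^ (γ + ε) * n := by ring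
        _ ≤ A ^ 2 * K * (d : ℝ) ^ (-(1 + ε)) +
              2 * A * K * ((N : ℝ) ^ (γ + 2 * ε) * (d : ℝ) ^ (-(1 + ε))) +
              2 * K * (N : ℝ) ^ (γ + ε) * n := by
            rw [e3]
            gcongr
        _ = _ := by
            rw [hA]
            ring
    refine (sum_le_sum hterm).trans ?_
    rw [sum_add_distrib, sum_add_distrib, ← mul_sum, ← mul_sum, ← mul_sum]
    have h2 : ∑ d ∈ Ioc α N, ((famd q α β d).card : ℝ) ≤ α * β * (K * (N : ℝ) ^ ε) := by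
      refine (sum_famd_le q α β _).trans ?_
      have h3 : ∀ t ∈ fam q α β, ((mm q t).divisors.card : ℝ) ≤ K * (N : ℝ) ^ ε := by
        intro t ht
        have h4 : t ∈ box α β := by
          unfold fam at ht
          exact (mem_filter.1 ht).1
        have h5 := mm_pos q t
        have h6 := hτ1 (mm q t) h5
        have h7 : ((mm q t).divisors.card : ℝ) ≤ ((mm q t).divisors.card : ℝ) ^ 4 :=
          le_self_pow₀ h6 (by norm_num)
        have h8 : ((mm q t : ℕ) : ℝ) ≤ N := by exact_mod_cast mm_le hq hαβ h4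
        calc ((mm q t).divisors.card : ℝ) ≤ K * ((mm q t : ℕ) : ℝ) ^ ε := h7.trans (hK _ h5)
          _ ≤ K * (N : ℝ) ^ ε := by gcongr
      refine (sum_le_sum h3).trans ?_
      rw [sum_const, nsmul_eq_mul]
      have h9 : ((fam q α β).card : ℝ) ≤ α * β := by
        have : (fam q α β).card ≤ α * β := by
          unfold fam
          refine (card_filter_le _ _).trans ?_
          rw [box, card_product, Nat.card_Ico, Nat.card_Ico]
          exact Nat.mul_le_mul (by omega) (by omega)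
        exact_mod_cast this
      gcongr
    have h10 : 2 * K * (N : ℝ) ^ (γ + ε) * ∑ d ∈ Ioc α N, ((famd q α β d).card : ℝ) ≤
        α * β * ((N : ℝ) ^ (γ + 2 * ε) * (2 * K ^ 2)) := by
      calc _ ≤ 2 * K * (N : ℝ) ^ (γ + ε) * (α * β * (K * (N : ℝ) ^ ε)) := by gcongr
        _ = α * β * (((N : ℝ) ^ (γ + ε) * (N : ℝ) ^ ε) * (2 * K ^ 2)) := by ring
        _ = _ := by
            rw [← Real.rpow_add (by linarith), show γ + ε + ε = γ + 2 * ε by ring]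
    have h11 : α * β * ((N : ℝ) ^ (γ + 2 * ε) *
        (64 * (q : ℝ) ^ 2 * K * (∑ d ∈ Ioc α N, (d : ℝ) ^ (-(1 + ε))) + 2 * K ^ 2)) =
        (α : ℝ) * β * (N : ℝ) ^ (γ + 2 * ε) * (64 * (q : ℝ) ^ 2 * K) *
          (∑ d ∈ Ioc α N, (d : ℝ) ^ (-(1 + ε))) +
        α * β * ((N : ℝ) ^ (γ + 2 * ε) * (2 * K ^ 2)) := by ring
    rw [h11]
    nlinarith [h10]
  calc ∑ d ∈ Ioc P N, f d ≤ (∑ d ∈ Ioc P α, f d) + ∑ d ∈ Ioc α N, f d := hsplit
    _ ≤ _ := add_le_add hsm hlg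
    _ = _ := by ring

end Pool.Agent.T2H21.RS
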